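import Pool.Agent.H496.R4.Schur

/-! The main estimate for forms of a fixed weight. -/

set_option autoImplicit false

namespace Pool.Agent.H496.R4

open MeasureTheory Set Function
open UpperHalfPlane hiding I
open scoped ENNReal NNReal ComplexConjugate MatrixGroups
open Pool.Agent.H496
open Pool.Agent.T2H31 (rad EB)

section core
variable {W V J G : Type*} [Fintype W] [DecidableEq W] [Fintype V] [DecidableEq V] [Fintype J] [DecidableEq J]
  [Group G] [Countable G] (r : W → G →* SL(2, ℝ)) (σ : V → G →* Quaternion ℝ) (hσ : ∀ v γ, ‖σ v γ‖ = 1)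
  {w₀ : W} {U Q : ℝ} {L : W → ℝ}

omit [DecidableEq W] [Fintype V] [DecidableEq V] [Countable G] in
theorem mp_W (γ : G) : MeasurePreserving (fun (z : W → ℍ) w => r w γ • z w) volume volume :=
  measurePreserving_pi _ _ fun w => measurePreserving_smul ((r w γ : SL(2, ℝ)) : GL (Fin 2) ℝ) (volume : Measure ℍ)

include hσ

omit [Countable G] in
/-- The pointwise inequality on the compact factor. -/
theorem fibre (hU : 6 ≤ U) (hL : ∀ w, 1 ≤ L w) (hQ0 : 0 < Q)
    (hQ : ∀ γ, γ ≠ 1 → Q ≤ (∏ w, |2 - (r w γ 0 0 + r w γ 1 1)|) * ∏ v, ‖σ v γ - 1‖ ^ 2)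
    {m : ℕ} (hm : 0 < m)
    (hlarge : 12 * 6 ^ Fintype.card W * (4 / (m : ℝ) ^ 2) ^ Fintype.card V ≤ Q) (n : V → ℕ) (z₀ : W → ℍ)
    {e : (W → ℍ) → (V → Quaternion ℝ) → ℂ} (he : ∀ z, e z ∈ harm n) (hec : ∀ z, Continuous (e z))
    (hinv : ∀ γ z x, e (fun w => r w γ • z w) (fun v => σ v γ * x v) = e z x) (x : V → S3) (z : W → ℍ) :
    ∑' γ : G, (univ.pi fun w => BB w₀ U L w (z₀ w)).indicator
        (fun z' => ENNReal.ofReal (‖e z' (fun v => (x v : Quaternion ℝ))‖ ^ 2)) (fun w => r w γ • z w) ≤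
      ENNReal.ofReal (KK W V m U Q n) * ∫⁻ y, ENNReal.ofReal (‖e z (fun v => (y v : Quaternion ℝ))‖ ^ 2) ∂(sgV V) := by
  classical
  set B : Set (W → ℍ) := univ.pi fun w => BB w₀ U L w (z₀ w) with hB
  have hK0 : 0 < KK W V m U Q n := by
    unfold KK
    have h1 : 0 < ∏ v, ((n v : ℝ) + 1) := Finset.prod_pos fun v _ => by positivity
    have hm' : (0 : ℝ) < m := by exact_mod_cast hm
    have hU0 : 0 < U := by linarith
    positivity
  rw [ENNReal.tsum_eq_iSup_sum]
  refine iSup_le fun s => ?_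
  set A : Finset G := s.filter fun γ => (fun w => r w γ • z w) ∈ B with hA
  have hAB : ∀ γ ∈ A, ∀ w, r w γ • z w ∈ BB w₀ U L w (z₀ w) := by
    intro γ hγ w
    exact (Finset.mem_filter.1 hγ).2 w (mem_univ w)
  set g₀ : (V → S3) → ℂ := fun y => e z (fun v => (y v : Quaternion ℝ)) with hg₀
  have hval : Continuous fun y : V → S3 => fun v => (y v : Quaternion ℝ) :=
    continuous_pi fun v => continuous_subtype_val.comp (continuous_apply v)
  have hgc : Continuous g₀ := (hec z).comp hval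
  -- the values as scalar products
  have hb : ∀ γ, e (fun w => r w γ • z w) (fun v => (x v : Quaternion ℝ)) =
      ∫ c, g₀ c * ((TH n ((x⁻¹ * sS σ hσ γ) * c) : ℝ) : ℂ) ∂(sgV V) := by
    intro γ
    rw [← repr_harm (he _) x]
    have h1 := int_leftV (x⁻¹ * sS σ hσ γ)
      (fun y => e (fun w => r w γ • z w) (fun v => ((x v * y v : S3) : Quaternion ℝ)) * ((TH n y : ℝ) : ℂ))
    rw [← h1]
    refine integral_congr_ae (Filter.Eventually.of_forall fun c => ?_)
    simp only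
    congr 1
    rw [hg₀]
    simp only
    rw [← hinv γ z]
    congr 1
    funext v
    have h2 : x v * ((x⁻¹ * sS σ hσ γ) * c) v = sS σ hσ γ v * c v := by
      simp only [Pi.mul_apply, Pi.inv_apply]
      group
    rw [h2]
    rfl
  have hS : ∀ γ ∈ A, ∑ γ' ∈ A, |TH n ((x⁻¹ * sS σ hσ γ) * (x⁻¹ * sS σ hσ γ')⁻¹)| ≤ KK W V m U Q n := by
    intro γ hγ
    have e1 : ∀ γ', TH n ((x⁻¹ * sS σ hσ γ) * (x⁻¹ * sS σ hσ γ')⁻¹) = TH n (sS σ hσ (γ' * γ⁻¹)) := by
      intro γ'
      have h1 : (x⁻¹ * sS σ hσ γ) * (x⁻¹ * sS σ hσ γ')⁻¹ = x⁻¹ * (sS σ hσ γ * (sS σ hσ γ')⁻¹) * (x⁻¹)⁻¹ := by group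
      have h2 : (sS σ hσ γ * (sS σ hσ γ')⁻¹)⁻¹ = sS σ hσ (γ' * γ⁻¹) := by
        have hmul : ∀ a b : G, sS σ hσ (a * b) = sS σ hσ a * sS σ hσ b := by
          intro a b
          funext v
          apply Subtype.ext
          exact map_mul (σ v) a b
        have h3 : sS σ hσ (γ' * γ⁻¹) * sS σ hσ γ = sS σ hσ γ' := by
          rw [← hmul]
          congr 1
          group
        rw [mul_inv_rev, inv_inv]
        exact (eq_mul_inv_of_mul_eq h3).symm
      rw [h1, TH_conj, ← TH_inv, h2]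
    simp_rw [e1]
    have h2 : ∑ γ' ∈ A, |TH n (sS σ hσ (γ' * γ⁻¹))| =
        ∑ δ ∈ A.map (Equiv.mulRight γ⁻¹).toEmbedding, |TH n (sS σ hσ δ)| := by
      rw [Finset.sum_map]
      rfl
    rw [h2]
    refine sum_kernel_finset r σ hσ (w₀ := w₀) hU hL hQ0 hQ hm hlarge n (z₀ := z₀) (z := fun w => r w γ • z w) _ ?_
    intro δ hδ w
    obtain ⟨γ', hγ', rfl⟩ := Finset.mem_map.1 hδ
    have h3 : (Equiv.mulRight γ⁻¹).toEmbedding γ' * γ = γ' := by
      show γ' * γ⁻¹ * γ = γ'
      group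
    have h4 : r w ((Equiv.mulRight γ⁻¹).toEmbedding γ') • r w γ • z w = r w γ' • z w := by
      rw [← mul_smul, ← map_mul, h3]
    rw [h4]
    exact hAB γ' hγ' w
  have key := selberg A (fun γ => x⁻¹ * sS σ hσ γ) n hgc hK0 hS
  have hint : Integrable (fun y => ‖g₀ y‖ ^ 2) (sgV V) :=
    (hgc.norm.pow 2).integrable_of_hasCompactSupport (HasCompactSupport.of_compactSpace _)
  calc ∑ γ ∈ s, B.indicator (fun z' => ENNReal.ofReal (‖e z' (fun v => (x v : Quaternion ℝ))‖ ^ 2)) (fun w => r w γ • z w) =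
        ∑ γ ∈ A, ENNReal.ofReal (‖e (fun w => r w γ • z w) (fun v => (x v : Quaternion ℝ))‖ ^ 2) := by
        rw [hA, Finset.sum_filter]
        refine Finset.sum_congr rfl fun γ _ => ?_
        rw [indicator_apply]
    _ = ENNReal.ofReal (∑ γ ∈ A, ‖∫ c, g₀ c * ((TH n ((x⁻¹ * sS σ hσ γ) * c) : ℝ) : ℂ) ∂(sgV V)‖ ^ 2) := by
        rw [ENNReal.ofReal_sum_of_nonneg fun γ _ => sq_nonneg _]
        refine Finset.sum_congr rfl fun γ _ => ?_
        rw [hb]
    _ ≤ ENNReal.ofReal (KK W V m U Q n * ∫ y, ‖g₀ y‖ ^ 2 ∂(sgV V)) := ENNReal.ofReal_le_ofReal key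
    _ = _ := by
        rw [ENNReal.ofReal_mul hK0.le, ofReal_integral_eq_lintegral_ofReal hint
          (Filter.Eventually.of_forall fun y => sq_nonneg _)]

variable (f : J → (W → ℍ) → (V → Quaternion ℝ) → ℂ) {lam : J → W → ℝ} {n : V → ℕ}
  {F : Set (W → ℍ)}

theorem core2 (hU : 6 ≤ U) (hL : ∀ w, 1 ≤ L w) (hQ0 : 0 < Q)
    (hQ : ∀ γ, γ ≠ 1 → Q ≤ (∏ w, |2 - (r w γ 0 0 + r w γ 1 1)|) * ∏ v, ‖σ v γ - 1‖ ^ 2)
    {m : ℕ} (hm : 0 < m)
    (hlarge : 12 * 6 ^ Fintype.card W * (4 / (m : ℝ) ^ 2) ^ Fintype.card V ≤ Q)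
    (hF : MeasurableSet F) (hcov : ∀ᵐ z : W → ℍ, ∃ γ : G, (fun w => r w γ • z w) ∈ F)
    (hfc : ∀ j, Continuous (uncurry (f j)))
    (hinv : ∀ j γ z x, f j (fun w => r w γ • z w) (fun v => σ v γ * x v) = f j z x)
    (hE : ∀ j w z x, Eig (fun u => f j (update z w u) x) (lam j w))
    (hn : ∀ j z, f j z ∈ harm n)
    (ho : ∀ i j, ∫ p : (W → ℍ) × (V → S3), f i p.1 (fun v => p.2 v) * conj (f j p.1 (fun v => p.2 v))
      ∂((volume.restrict F).prod (sgV V)) = if i = j then 1 else 0)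
    (hlam2 : ∀ j, ∀ w ≠ w₀, |lam j w| ≤ L w)
    {ϑ : J → ℝ} (hϑ : ∀ j, 0 ≤ ϑ j) (hϑ2 : ∀ j, ϑ j ≤ 1 / 2) (hlam : ∀ j, lam j w₀ ≤ 1 / 4 - ϑ j ^ 2)
    (z : W → ℍ) (g : V → S3) :
    ∑ j, U ^ (2 * ϑ j) * ‖f j z (fun v => (g v : Quaternion ℝ))‖ ^ 2 ≤
      (4 * Real.pi * ∏ w ∈ Finset.univ.erase w₀, (17 * L w)) * KK W V m U Q n := by
  have hU0 : 0 < U := by linarith
  have hpi := Real.pi_pos
  have hLpos : ∀ w, 0 < L w := fun w => by linarith [hL w]
  have hK0 : 0 < KK W V m U Q n := by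
    unfold KK
    have h1 : 0 < ∏ v, ((n v : ℝ) + 1) := Finset.prod_pos fun v _ => by positivity
    have hm' : (0 : ℝ) < m := by exact_mod_cast hm
    positivity
  have hCC0 : ∀ w j, 0 ≤ CC w₀ U L ϑ w j := by
    intro w j
    have := hLpos w
    unfold CC
    split_ifs <;> positivity
  set gg : V → Quaternion ℝ := fun v => (g v : Quaternion ℝ) with hgg
  have hmf : ∀ j, Measurable (uncurry (f j)) := fun j => (hfc j).measurable
  have hms : ∀ c : J → ℂ, Measurable fun p : (W → ℍ) × (V → Quaternion ℝ) => NN f c p.1 p.2 := by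
    intro c
    refine Measurable.ennreal_ofReal ?_
    refine Measurable.pow_const (Measurable.norm ?_) 2
    exact Finset.measurable_sum _ fun j _ => (hmf j).const_mul _
  have hmz : ∀ (c : J → ℂ) (y : V → Quaternion ℝ), Measurable fun z => NN f c z y := by
    intro c y
    have hpr : Measurable fun z : W → ℍ => (z, y) := measurable_prodMk_right
    have h := (hms c).comp hpr
    exact h
  obtain ⟨ι, hι, A', m', hb, hmain⟩ := all_places (volume : Measure ℍ) f (AA w₀ U L) (mm w₀ U lam) (BB w₀ U L)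
    (fun w j => ENNReal.ofReal (CC w₀ U L ϑ w j)) (one_place f w₀ hU hϑ hϑ2 hL hlam hE)
    (one_const w₀ hU hϑ hϑ2 hL hlam hlam2) hmz
  set BW : Set (W → ℍ) := univ.pi fun w => BB w₀ U L w (z w) with hBW
  have hmBW : MeasurableSet BW := MeasurableSet.univ_pi fun w => measurableSet_BB w₀ U L w (z w)
  have hval : Continuous fun y : V → S3 => fun v => (y v : Quaternion ℝ) :=
    continuous_pi fun v => continuous_subtype_val.comp (continuous_apply v)
  -- the key bound
  have hkey : ∀ c : J → ℂ, ∫⁻ z' in BW, NN f c z' gg ≤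
      ENNReal.ofReal (KK W V m U Q n) * ENNReal.ofReal (∑ j, ‖c j‖ ^ 2) := by
    intro c
    set e : (W → ℍ) → (V → Quaternion ℝ) → ℂ := fun z x => ∑ j, c j * f j z x with he
    have hen : ∀ z, e z ∈ harm n := by
      intro z
      have : e z = ∑ j, c j • f j z := by
        funext x
        simp [he]
      rw [this]
      exact Submodule.sum_mem _ fun j _ => Submodule.smul_mem _ _ (hn j z)
    have hec : ∀ z, Continuous (e z) := by
      intro z
      refine continuous_finsetSum _ fun j _ => continuous_const.mul ?_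
      have h := (hfc j).comp (continuous_const.prodMk continuous_id : Continuous fun x : V → Quaternion ℝ => (z, x))
      exact h
    have hei : ∀ γ z x, e (fun w => r w γ • z w) (fun v => σ v γ * x v) = e z x := by
      intro γ z x
      simp only [he, hinv]
    have h1 := unfold_cover (volume : Measure (W → ℍ)) (fun (γ : G) (z : W → ℍ) w => r w γ • z w)
      (fun z => by
        funext w
        rw [map_one, one_smul])
      (fun γ γ' z => by
        funext w
        rw [map_mul, mul_smul])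
      (mp_W r) hmBW hF (hmz c gg) hcov
    refine h1.trans ?_
    have h2 : ∀ z', ∑' γ : G, BW.indicator (fun z' => NN f c z' gg) (fun w => r w γ • z' w) ≤
        ENNReal.ofReal (KK W V m U Q n) * ∫⁻ y, NN f c z' (fun v => (y v : Quaternion ℝ)) ∂(sgV V) := fun z' =>
      fibre r σ hσ hU hL hQ0 hQ hm hlarge n z hen hec hei g z'
    refine (lintegral_mono h2).trans ?_
    have hmy : Measurable fun p : (W → ℍ) × (V → S3) => NN f c p.1 (fun v => (p.2 v : Quaternion ℝ)) := by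
      have h3 : Measurable fun p : (W → ℍ) × (V → S3) => (p.1, fun v => (p.2 v : Quaternion ℝ)) :=
        measurable_fst.prodMk (hval.measurable.comp measurable_snd)
      have h := (hms c).comp h3
      exact h
    rw [lintegral_const_mul _ hmy.lintegral_prod_right', ← lintegral_prod _ hmy.aemeasurable]
    refine mul_le_mul' le_rfl (le_of_eq ?_)
    refine orth_sum _ (fun j (p : (W → ℍ) × (V → S3)) => f j p.1 (fun v => p.2 v)) (fun j => ?_) ho c
    have h3 : Measurable fun p : (W → ℍ) × (V → S3) => (p.1, fun v => (p.2 v : Quaternion ℝ)) :=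
      measurable_fst.prodMk (hval.measurable.comp measurable_snd)
    exact ((hmf j).comp h3).aestronglyMeasurable
  -- everything together
  have hall : ∀ c : J → ℂ, NN f c z gg ≤
      ENNReal.ofReal (KK W V m U Q n) * ENNReal.ofReal (∑ j, (∏ w, CC w₀ U L ϑ w j) * ‖c j‖ ^ 2) := by
    intro c
    calc NN f c z gg ≤ ∑ i, A' i * ∫⁻ z' in BW, NN f (fun j => (m' i j : ℂ) * c j) z' gg := hmain c z gg
      _ ≤ ∑ i, A' i * (ENNReal.ofReal (KK W V m U Q n) * ENNReal.ofReal (∑ j, ‖(m' i j : ℂ) * c j‖ ^ 2)) :=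
          Finset.sum_le_sum fun i _ => mul_le_mul' le_rfl (hkey _)
      _ = ENNReal.ofReal (KK W V m U Q n) * ∑ j, (∑ i, A' i * ENNReal.ofReal (m' i j ^ 2)) *
          ENNReal.ofReal (‖c j‖ ^ 2) := by
          simp_rw [Finset.sum_mul]
          rw [Finset.sum_comm, Finset.mul_sum]
          refine Finset.sum_congr rfl fun i _ => ?_
          rw [ENNReal.ofReal_sum_of_nonneg (fun j _ => sq_nonneg _), Finset.mul_sum, Finset.mul_sum, Finset.mul_sum]
          refine Finset.sum_congr rfl fun j _ => ?_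
          rw [norm_mul, mul_pow, Complex.norm_real, Real.norm_eq_abs, sq_abs, ENNReal.ofReal_mul (sq_nonneg _)]
          ring
      _ ≤ ENNReal.ofReal (KK W V m U Q n) * ∑ j, ENNReal.ofReal (∏ w, CC w₀ U L ϑ w j) *
          ENNReal.ofReal (‖c j‖ ^ 2) := by
          refine mul_le_mul' le_rfl (Finset.sum_le_sum fun j _ => mul_le_mul' ?_ le_rfl)
          rw [ENNReal.ofReal_prod_of_nonneg (fun w _ => hCC0 w j)]
          exact hb j
      _ = _ := by
          rw [ENNReal.ofReal_sum_of_nonneg (fun j _ => mul_nonneg (Finset.prod_nonneg fun w _ => hCC0 w j) (sq_nonneg _))]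
          congr 1
          refine Finset.sum_congr rfl fun j _ => ?_
          rw [ENNReal.ofReal_mul (Finset.prod_nonneg fun w _ => hCC0 w j)]
  -- duality
  have hCCe : ∀ j, ∏ w, CC w₀ U L ϑ w j =
      (4 * Real.pi * ∏ w ∈ Finset.univ.erase w₀, (17 * L w)) * U ^ (-(2 * ϑ j)) := by
    intro j
    rw [← Finset.mul_prod_erase Finset.univ _ (Finset.mem_univ w₀)]
    have e1 : CC w₀ U L ϑ w₀ j = 4 * Real.pi * U ^ (-(2 * ϑ j)) := by simp [CC]
    have e2 : ∏ w ∈ Finset.univ.erase w₀, CC w₀ U L ϑ w j = ∏ w ∈ Finset.univ.erase w₀, (17 * L w) := by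
      refine Finset.prod_congr rfl fun w hw => ?_
      rw [CC, if_neg (Finset.ne_of_mem_erase hw)]
    rw [e1, e2]
    ring
  set M : ℝ := 4 * Real.pi * ∏ w ∈ Finset.univ.erase w₀, (17 * L w) with hM
  have hM0 : 0 ≤ M := by
    rw [hM]
    have : 0 ≤ ∏ w ∈ Finset.univ.erase w₀, (17 * L w) := Finset.prod_nonneg fun w _ => by
      have := hLpos w
      positivity
    positivity
  set S : ℝ := ∑ j, U ^ (2 * ϑ j) * ‖f j z gg‖ ^ 2 with hS
  have hS0 : 0 ≤ S := Finset.sum_nonneg fun j _ => by positivity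
  have hdual := hall (fun j => ((U ^ (2 * ϑ j) : ℝ) : ℂ) * conj (f j z gg))
  have e2 : NN f (fun j => ((U ^ (2 * ϑ j) : ℝ) : ℂ) * conj (f j z gg)) z gg = ENNReal.ofReal (S ^ 2) := by
    rw [NN]
    congr 2
    have : ∑ j, ((U ^ (2 * ϑ j) : ℝ) : ℂ) * conj (f j z gg) * f j z gg = ((S : ℝ) : ℂ) := by
      rw [hS]
      push_cast
      refine Finset.sum_congr rfl fun j _ => ?_
      rw [mul_assoc, mul_comm (conj (f j z gg)), Complex.mul_conj, Complex.normSq_eq_norm_sq]
      push_cast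
      rfl
    rw [this, Complex.norm_real, Real.norm_of_nonneg hS0]
  have e3 : ∑ j, (∏ w, CC w₀ U L ϑ w j) * ‖((U ^ (2 * ϑ j) : ℝ) : ℂ) * conj (f j z gg)‖ ^ 2 = M * S := by
    rw [hS, Finset.mul_sum]
    refine Finset.sum_congr rfl fun j _ => ?_
    have hUp : 0 < U ^ (2 * ϑ j) := by positivity
    rw [hCCe, norm_mul, RCLike.norm_conj, Complex.norm_real, Real.norm_of_nonneg hUp.le, mul_pow,
      Real.rpow_neg hU0.le]
    field_simp
  rw [e2, e3, ← ENNReal.ofReal_mul hK0.le] at hdual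
  have hdual2 := (ENNReal.ofReal_le_ofReal_iff (mul_nonneg hK0.le (mul_nonneg hM0 hS0))).1 hdual
  rcases hS0.eq_or_lt with h | h
  · rw [← h]
    exact mul_nonneg hM0 hK0.le
  · have h7 : S * S ≤ (M * KK W V m U Q n) * S := by
      calc S * S = S ^ 2 := by ring
        _ ≤ _ := hdual2
        _ = _ := by ring
    exact le_of_mul_le_mul_right h7 h

end core

end Pool.Agent.H496.R4
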