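import Mathlib

/-! Packing in the hyperbolic plane. -/

set_option autoImplicit false

namespace Pool.Agent.H496.R4

open Set Function

section pack
variable {ι : Type*} (t : ι → ℝ) (X : ι → ℂ)

theorem floor_card (S : Finset ι) (a : ι → ℝ) {h R : ℝ} (hh : 0 < h) (hR : 0 ≤ R) (ha : ∀ i ∈ S, |a i| ≤ R)
    (hsep : ∀ i ∈ S, ∀ j ∈ S, i ≠ j → h ≤ |a i - a j|) : (S.card : ℝ) ≤ 2 * R / h + 2 := by
  classical
  have hinj : Set.InjOn (fun i => ⌊a i / h⌋) S := by
    intro i hi j hj hij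
    by_contra hne
    have h1 := hsep i hi j hj hne
    have h2 : |a i / h - a j / h| < 1 := Int.abs_sub_lt_one_of_floor_eq_floor hij
    rw [← sub_div, abs_div, abs_of_pos hh, div_lt_one hh] at h2
    linarith
  have hmaps : ∀ i ∈ S, (fun i => ⌊a i / h⌋) i ∈ Finset.Icc ⌊-(R / h)⌋ ⌊R / h⌋ := by
    intro i hi
    have h1 := abs_le.1 (ha i hi)
    rw [Finset.mem_Icc]
    constructor
    · apply Int.floor_le_floor
      rw [← neg_div]
      gcongr
      exact h1.1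
    · apply Int.floor_le_floor
      gcongr
      exact h1.2
  have hc := Finset.card_le_card_of_injOn _ hmaps hinj
  rw [Int.card_Icc] at hc
  have h3 : ((⌊R / h⌋ + 1 - ⌊-(R / h)⌋).toNat : ℝ) ≤ 2 * R / h + 2 := by
    have h4 : (0 : ℤ) ≤ ⌊R / h⌋ + 1 - ⌊-(R / h)⌋ := by
      have : ⌊-(R / h)⌋ ≤ ⌊R / h⌋ := Int.floor_le_floor (by
        have : 0 ≤ R / h := by positivity
        linarith)
      linarith
    have h5 : (((⌊R / h⌋ + 1 - ⌊-(R / h)⌋).toNat : ℤ) : ℝ) = ((⌊R / h⌋ + 1 - ⌊-(R / h)⌋ : ℤ) : ℝ) := by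
      rw [Int.toNat_of_nonneg h4]
    have h6 : (((⌊R / h⌋ + 1 - ⌊-(R / h)⌋).toNat : ℤ) : ℝ) = ((⌊R / h⌋ + 1 - ⌊-(R / h)⌋).toNat : ℝ) := by
      norm_cast
    rw [← h6, h5]
    push_cast
    have h7 := Int.floor_le (R / h)
    have h8 := Int.lt_floor_add_one (-(R / h))
    have h9 : 2 * R / h = 2 * (R / h) := by ring
    rw [h9]
    linarith
  exact (Nat.cast_le.2 hc).trans h3

theorem shell {M T : ℝ} (hM : 5 ≤ M) (hT : 0 < T) (S : Finset ι) (ht : ∀ i ∈ S, 1 ≤ t i)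
    (hX : ∀ i ∈ S, ‖X i‖ ^ 2 = t i ^ 2 - 1)
    (hsep : ∀ i ∈ S, ∀ j ∈ S, i ≠ j → M ≤ t i * t j - (X i * (starRingEnd ℂ) (X j)).re)
    (h1 : ∀ i ∈ S, T / 2 < t i) (h2 : ∀ i ∈ S, t i ≤ T) : (S.card : ℝ) ≤ 2 * Real.pi * T / Real.sqrt M + 2 := by
  have hM0 : 0 < Real.sqrt M := Real.sqrt_pos.2 (by linarith)
  have hMs : Real.sqrt M ^ 2 = M := Real.sq_sqrt (by linarith)
  have key := floor_card S (fun i => (X i).arg) (h := Real.sqrt M / T) (R := Real.pi) (by positivity)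
    Real.pi_pos.le (fun i _ => Complex.abs_arg_le_pi _) (fun i hi j hj hne => ?_)
  · refine key.trans (le_of_eq ?_)
    field_simp
  set a := (X i).arg with ha
  set b := (X j).arg with hb
  have hi1 := ht i hi
  have hj1 := ht j hj
  have hXi := hX i hi
  have hXj := hX j hj
  have e1 : (X i * (starRingEnd ℂ) (X j)).re = ‖X i‖ * ‖X j‖ * Real.cos (a - b) := by
    have r1 : (X i).re = ‖X i‖ * Real.cos a := (Complex.norm_mul_cos_arg (X i)).symm
    have r2 : (X i).im = ‖X i‖ * Real.sin a := (Complex.norm_mul_sin_arg (X i)).symm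
    have r3 : (X j).re = ‖X j‖ * Real.cos b := (Complex.norm_mul_cos_arg (X j)).symm
    have r4 : (X j).im = ‖X j‖ * Real.sin b := (Complex.norm_mul_sin_arg (X j)).symm
    rw [Complex.mul_re, Complex.conj_re, Complex.conj_im, Real.cos_sub]
    rw [r1, r2, r3, r4]
    ring
  have hcos : 1 - (a - b) ^ 2 / 2 ≤ Real.cos (a - b) := Real.one_sub_sq_div_two_le_cos
  have hn1 := norm_nonneg (X i)
  have hn2 := norm_nonneg (X j)
  have hs := hsep i hi j hj hne
  rw [e1] at hs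
  have h5 : t i * t j - ‖X i‖ * ‖X j‖ ≤ 5 / 2 := by
    by_cases h6 : t i * t j ≤ 5 / 2
    · have : 0 ≤ ‖X i‖ * ‖X j‖ := by positivity
      linarith
    · push Not at h6
      have h7 : (t i * t j - 5 / 2) ^ 2 ≤ (‖X i‖ * ‖X j‖) ^ 2 := by
        rw [mul_pow, hXi, hXj]
        have h8 : t i ≤ 2 * t j := by
          have := h2 i hi
          have := h1 j hj
          linarith
        have h9 : t j ≤ 2 * t i := by
          have := h2 j hj
          have := h1 i hi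
          linarith
        nlinarith [mul_nonneg (sub_nonneg.2 h8) (sub_nonneg.2 h9)]
      have := abs_le_of_sq_le_sq' h7 (by positivity)
      linarith [this.2]
  have h6 : ‖X i‖ * ‖X j‖ ≤ T ^ 2 := by
    have h7 : ‖X i‖ ≤ T := by
      have := h2 i hi
      nlinarith
    have h8 : ‖X j‖ ≤ T := by
      have := h2 j hj
      nlinarith
    calc ‖X i‖ * ‖X j‖ ≤ T * T := mul_le_mul h7 h8 hn2 hT.le
      _ = T ^ 2 := by ring
  have h7 : M ≤ 5 / 2 + T ^ 2 * ((a - b) ^ 2 / 2) := by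
    have h8 : ‖X i‖ * ‖X j‖ * (1 - (a - b) ^ 2 / 2) ≤ ‖X i‖ * ‖X j‖ * Real.cos (a - b) :=
      mul_le_mul_of_nonneg_left hcos (by positivity)
    have h9 : ‖X i‖ * ‖X j‖ * ((a - b) ^ 2 / 2) ≤ T ^ 2 * ((a - b) ^ 2 / 2) :=
      mul_le_mul_of_nonneg_right h6 (by positivity)
    nlinarith
  have h8 : (Real.sqrt M / T) ^ 2 ≤ |a - b| ^ 2 := by
    rw [div_pow, hMs, sq_abs, div_le_iff₀ (by positivity)]
    nlinarith
  exact (sq_le_sq₀ (by positivity) (abs_nonneg _)).1 h8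

theorem pack_far {M : ℝ} (hM : 5 ≤ M) : ∀ (k : ℕ) (T : ℝ) (_ : T ≤ 2 ^ k * Real.sqrt (M / 2)) (S : Finset ι)
    (_ : ∀ i ∈ S, 1 ≤ t i) (_ : ∀ i ∈ S, ‖X i‖ ^ 2 = t i ^ 2 - 1)
    (_ : ∀ i ∈ S, ∀ j ∈ S, i ≠ j → M ≤ t i * t j - (X i * (starRingEnd ℂ) (X j)).re)
    (_ : ∀ i ∈ S, Real.sqrt (M / 2) ≤ t i) (_ : ∀ i ∈ S, t i ≤ T), (S.card : ℝ) * Real.sqrt M ≤ 20 * max T 0 := by
  have hM0 : 0 < Real.sqrt M := Real.sqrt_pos.2 (by linarith)
  have hMs : Real.sqrt M ^ 2 = M := Real.sq_sqrt (by linarith)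
  have hM2 : 0 < Real.sqrt (M / 2) := Real.sqrt_pos.2 (by linarith)
  have hM2s : Real.sqrt (M / 2) ^ 2 = M / 2 := Real.sq_sqrt (by linarith)
  have hrel : Real.sqrt M ≤ 3 / 2 * Real.sqrt (M / 2) := by
    have : Real.sqrt M ^ 2 ≤ (3 / 2 * Real.sqrt (M / 2)) ^ 2 := by
      rw [mul_pow, hMs, hM2s]
      nlinarith
    exact (sq_le_sq₀ hM0.le (by positivity)).1 this
  -- the shell bound
  have hshell : ∀ (T : ℝ) (S : Finset ι), Real.sqrt (M / 2) ≤ T → (∀ i ∈ S, 1 ≤ t i) → (∀ i ∈ S, ‖X i‖ ^ 2 = t i ^ 2 - 1) →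
      (∀ i ∈ S, ∀ j ∈ S, i ≠ j → M ≤ t i * t j - (X i * (starRingEnd ℂ) (X j)).re) →
      (∀ i ∈ S, T / 2 < t i) → (∀ i ∈ S, t i ≤ T) → (S.card : ℝ) * Real.sqrt M ≤ 10 * T := by
    intro T S hT a1 a2 a3 a4 a5
    have hT0 : 0 < T := by linarith
    have h1 := shell t X hM hT0 S a1 a2 a3 a4 a5
    have h2 : (S.card : ℝ) * Real.sqrt M ≤ (2 * Real.pi * T / Real.sqrt M + 2) * Real.sqrt M :=
      mul_le_mul_of_nonneg_right h1 hM0.le
    have h3 : (2 * Real.pi * T / Real.sqrt M + 2) * Real.sqrt M = 2 * Real.pi * T + 2 * Real.sqrt M := by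
      field_simp
    rw [h3] at h2
    have h4 := Real.pi_lt_d2
    nlinarith
  intro k
  induction k with
  | zero =>
    intro T hT S a1 a2 a3 a4 a5
    rcases S.eq_empty_or_nonempty with rfl | ⟨i, hi⟩
    · simp
    · have h1 : Real.sqrt (M / 2) ≤ T := (a4 i hi).trans (a5 i hi)
      have h2 := hshell T S h1 a1 a2 a3 (fun i hi => by
        have := a4 i hi
        rw [pow_zero, one_mul] at hT
        linarith) a5
      have h3 : T ≤ max T 0 := le_max_left _ _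
      linarith
  | succ k ih =>
    intro T hT S a1 a2 a3 a4 a5
    classical
    rcases S.eq_empty_or_nonempty with rfl | ⟨i, hi⟩
    · simp
    · have h1 : Real.sqrt (M / 2) ≤ T := (a4 i hi).trans (a5 i hi)
      have hT0 : 0 < T := by linarith
      set S1 := S.filter fun i => T / 2 < t i with hS1
      set S2 := S.filter fun i => ¬ T / 2 < t i with hS2
      have hcard : S.card = S1.card + S2.card := (Finset.card_filter_add_card_filter_not _).symm
      have m1 : ∀ i ∈ S1, i ∈ S ∧ T / 2 < t i := fun i hi => Finset.mem_filter.1 hi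
      have m2 : ∀ i ∈ S2, i ∈ S ∧ ¬ T / 2 < t i := fun i hi => Finset.mem_filter.1 hi
      have b1 := hshell T S1 h1 (fun i hi => a1 i (m1 i hi).1) (fun i hi => a2 i (m1 i hi).1)
        (fun i hi j hj hne => a3 i (m1 i hi).1 j (m1 j hj).1 hne) (fun i hi => (m1 i hi).2) (fun i hi => a5 i (m1 i hi).1)
      have b2 := ih (T / 2) (by
          rw [pow_succ] at hT
          linarith) S2 (fun i hi => a1 i (m2 i hi).1) (fun i hi => a2 i (m2 i hi).1)
        (fun i hi j hj hne => a3 i (m2 i hi).1 j (m2 j hj).1 hne) (fun i hi => a4 i (m2 i hi).1)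
        (fun i hi => not_lt.1 (m2 i hi).2)
      rw [max_eq_left (by linarith)] at b2 ⊢
      rw [hcard]
      push_cast
      linarith

theorem pack {M T : ℝ} (hM : 5 ≤ M) (hT : 0 ≤ T) (S : Finset ι)
    (a1 : ∀ i ∈ S, 1 ≤ t i) (a2 : ∀ i ∈ S, ‖X i‖ ^ 2 = t i ^ 2 - 1)
    (a3 : ∀ i ∈ S, ∀ j ∈ S, i ≠ j → M ≤ t i * t j - (X i * (starRingEnd ℂ) (X j)).re)
    (a5 : ∀ i ∈ S, t i ≤ T) : (S.card : ℝ) ≤ 1 + 20 * T / Real.sqrt M := by
  classical
  have hM0 : 0 < Real.sqrt M := Real.sqrt_pos.2 (by linarith)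
  have hM2 : 0 < Real.sqrt (M / 2) := Real.sqrt_pos.2 (by linarith)
  have hM2s : Real.sqrt (M / 2) ^ 2 = M / 2 := Real.sq_sqrt (by linarith)
  set S1 := S.filter fun i => t i < Real.sqrt (M / 2) with hS1
  set S2 := S.filter fun i => ¬ t i < Real.sqrt (M / 2) with hS2
  have hcard : S.card = S1.card + S2.card := (Finset.card_filter_add_card_filter_not _).symm
  have m1 : ∀ i ∈ S1, i ∈ S ∧ t i < Real.sqrt (M / 2) := fun i hi => Finset.mem_filter.1 hi
  have m2 : ∀ i ∈ S2, i ∈ S ∧ ¬ t i < Real.sqrt (M / 2) := fun i hi => Finset.mem_filter.1 hi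
  have c1 : S1.card ≤ 1 := by
    rw [Finset.card_le_one]
    intro i hi j hj
    by_contra hne
    have h1 := a3 i (m1 i hi).1 j (m1 j hj).1 hne
    have h2 : |(X i * (starRingEnd ℂ) (X j)).re| ≤ ‖X i‖ * ‖X j‖ := by
      refine (Complex.abs_re_le_norm _).trans (le_of_eq ?_)
      rw [norm_mul, RCLike.norm_conj]
    have h3 := (abs_le.1 h2).1
    have h4 : ‖X i‖ ≤ t i := by
      have := a2 i (m1 i hi).1
      have := a1 i (m1 i hi).1
      have := norm_nonneg (X i)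
      nlinarith
    have h5 : ‖X j‖ ≤ t j := by
      have := a2 j (m1 j hj).1
      have := a1 j (m1 j hj).1
      have := norm_nonneg (X j)
      nlinarith
    have h6 : ‖X i‖ * ‖X j‖ ≤ t i * t j := mul_le_mul h4 h5 (norm_nonneg _) (by linarith [a1 i (m1 i hi).1])
    have h7 : t i * t j < Real.sqrt (M / 2) * Real.sqrt (M / 2) :=
      mul_lt_mul'' (m1 i hi).2 (m1 j hj).2 (by linarith [a1 i (m1 i hi).1]) (by linarith [a1 j (m1 j hj).1])
    nlinarith
  obtain ⟨k, hk⟩ : ∃ k : ℕ, T ≤ 2 ^ k * Real.sqrt (M / 2) := by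
    obtain ⟨k, hk⟩ := pow_unbounded_of_one_lt (T / Real.sqrt (M / 2)) (by norm_num : (1 : ℝ) < 2)
    refine ⟨k, ?_⟩
    rw [div_lt_iff₀ hM2] at hk
    exact hk.le
  have c2 := pack_far t X hM k T hk S2 (fun i hi => a1 i (m2 i hi).1) (fun i hi => a2 i (m2 i hi).1)
        (fun i hi j hj hne => a3 i (m2 i hi).1 j (m2 j hj).1 hne) (fun i hi => not_lt.1 (m2 i hi).2)
        (fun i hi => a5 i (m2 i hi).1)
  rw [max_eq_left hT] at c2
  rw [hcard]
  push_cast
  have c3 : (S2.card : ℝ) ≤ 20 * T / Real.sqrt M := by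
    rw [le_div_iff₀ hM0]
    exact c2
  have c4 : (S1.card : ℝ) ≤ 1 := by exact_mod_cast c1
  linarith

end pack

/-! ### the hyperboloid -/

open UpperHalfPlane in
/-- the spatial coordinates on the hyperboloid with respect to the base point `z₀` -/
noncomputable def hX (z₀ z : UpperHalfPlane) : ℂ :=
  ⟨(((z.re - z₀.re) ^ 2 + z.im ^ 2) - z₀.im ^ 2) / (2 * z.im * z₀.im), (z.re - z₀.re) / z.im⟩

theorem cosh_form (z₀ z w : UpperHalfPlane) : Real.cosh (dist z w) =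
    Real.cosh (dist z₀ z) * Real.cosh (dist z₀ w) - (hX z₀ z * (starRingEnd ℂ) (hX z₀ w)).re := by
  rw [UpperHalfPlane.cosh_dist', UpperHalfPlane.cosh_dist', UpperHalfPlane.cosh_dist', Complex.mul_re,
    Complex.conj_re, Complex.conj_im]
  simp only [hX]
  have h0 := z₀.im_pos.ne'
  have h1 := z.im_pos.ne'
  have h2 := w.im_pos.ne'
  field_simp
  ring

theorem norm_hX (z₀ z : UpperHalfPlane) : ‖hX z₀ z‖ ^ 2 = Real.cosh (dist z₀ z) ^ 2 - 1 := by
  have h := cosh_form z₀ z z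
  rw [dist_self, Real.cosh_zero, Complex.mul_conj, Complex.ofReal_re, Complex.normSq_eq_norm_sq] at h
  nlinarith

/-- **packing**: at most `1 + 20 T / Q` points of pairwise `cosh (d / 2) ≥ Q` in a ball of radius `arcosh T` -/
theorem pack_points {ι : Type*} (S : Finset ι) (p : ι → UpperHalfPlane) (z₀ : UpperHalfPlane) {Q T : ℝ} (hQ : 3 ≤ Q)
    (hT : 0 ≤ T) (hb : ∀ i ∈ S, Real.cosh (dist z₀ (p i)) ≤ T)
    (hsep : ∀ i ∈ S, ∀ j ∈ S, i ≠ j → Q ≤ Real.cosh (dist (p i) (p j) / 2)) :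
    (S.card : ℝ) ≤ 1 + 20 * T / Q := by
  have h := pack (fun i => Real.cosh (dist z₀ (p i))) (fun i => hX z₀ (p i)) (M := Q ^ 2) (by nlinarith) hT S
    (fun i _ => Real.one_le_cosh _) (fun i _ => norm_hX _ _) (fun i hi j hj hne => ?_) hb
  · rwa [Real.sqrt_sq (by linarith)] at h
  · rw [← cosh_form]
    have h1 := hsep i hi j hj hne
    have h2 : Real.cosh (dist (p i) (p j)) = 2 * Real.cosh (dist (p i) (p j) / 2) ^ 2 - 1 := by
      have h3 := Real.cosh_two_mul (dist (p i) (p j) / 2)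
      have h4 := Real.cosh_sq (dist (p i) (p j) / 2)
      rw [show 2 * (dist (p i) (p j) / 2) = dist (p i) (p j) by ring] at h3
      linarith
    rw [h2]
    nlinarith

end Pool.Agent.H496.R4
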