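import Pool.Agent.H496.R4.Rep3

/-! The characters of the group of unit quaternions, fourth part: idempotence, products. -/

set_option autoImplicit false

namespace Pool.Agent.H496.R4

open MeasureTheory Set Function
open scoped ENNReal NNReal ComplexConjugate Pointwise
open Pool.Agent.H496

theorem exists_tor (x : S3) : ∃ (h : S3) (θ : ℝ), x = h * tor θ * h⁻¹ ∧ Real.cos θ = (x : Quaternion ℝ).re := by
  set c : ℝ := (x : Quaternion ℝ).re with hc
  obtain ⟨Y, hY0, hY1, hY2, hY3, hYz⟩ : ∃ Y : Quaternion ℝ, Y.re = 0 ∧ Y.imI = (x : Quaternion ℝ).imI ∧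
      Y.imJ = (x : Quaternion ℝ).imJ ∧ Y.imK = (x : Quaternion ℝ).imK ∧
      ((x : Quaternion ℝ).imI = 0 → (x : Quaternion ℝ).imJ = 0 → (x : Quaternion ℝ).imK = 0 → Y = 0) := by
    refine ⟨⟨0, (x : Quaternion ℝ).imI, (x : Quaternion ℝ).imJ, (x : Quaternion ℝ).imK⟩, rfl, rfl, rfl, rfl,
      fun h1 h2 h3 => ?_⟩
    rw [h1, h2, h3]
    rfl
  have hx : (x : Quaternion ℝ) = c • (1 : Quaternion ℝ) + Y := by
    ext <;> simp [hY0, hY1, hY2, hY3, hc]
  set s2 : ℝ := (x : Quaternion ℝ).imI ^ 2 + (x : Quaternion ℝ).imJ ^ 2 + (x : Quaternion ℝ).imK ^ 2 with hs2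
  have hsum : c ^ 2 + s2 = 1 := by
    have h := S3_norm x
    have h2 : ‖(x : Quaternion ℝ)‖ ^ 2 = 1 := by rw [h, one_pow]
    rw [sq, ← Quaternion.normSq_eq_norm_mul_self, Quaternion.normSq_def'] at h2
    rw [hs2]
    linarith
  have hs20 : 0 ≤ s2 := by positivity
  set s : ℝ := Real.sqrt s2 with hs
  have hss : s ^ 2 = s2 := Real.sq_sqrt hs20
  have hYY : Y * Y = -(s2 • (1 : Quaternion ℝ)) := by
    ext
    · simp only [Quaternion.re_mul, Quaternion.re_neg, Quaternion.re_smul, hY0, hY1, hY2, hY3, hs2, q1_re, smul_eq_mul]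
      ring
    · simp only [Quaternion.imI_mul, Quaternion.imI_neg, Quaternion.imI_smul, hY0, hY1, hY2, hY3, q1_i, smul_eq_mul]
      ring
    · simp only [Quaternion.imJ_mul, Quaternion.imJ_neg, Quaternion.imJ_smul, hY0, hY1, hY2, hY3, q1_j, smul_eq_mul]
      ring
    · simp only [Quaternion.imK_mul, Quaternion.imK_neg, Quaternion.imK_smul, hY0, hY1, hY2, hY3, q1_k, smul_eq_mul]
      ring
  obtain ⟨h, hh⟩ : ∃ h : S3, Y * (h : Quaternion ℝ) = s • ((h : Quaternion ℝ) * qI) := by
    by_cases h0 : s = 0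
    · refine ⟨1, ?_⟩
      have hs0 : s2 = 0 := by rw [← hss, h0]; ring
      have h1 : (x : Quaternion ℝ).imI = 0 := by
        have := sq_nonneg (x : Quaternion ℝ).imJ
        have := sq_nonneg (x : Quaternion ℝ).imK
        have : (x : Quaternion ℝ).imI ^ 2 = 0 := by nlinarith [sq_nonneg (x : Quaternion ℝ).imI]
        exact pow_eq_zero_iff (two_ne_zero) |>.1 this
      have h2 : (x : Quaternion ℝ).imJ = 0 := by
        have : (x : Quaternion ℝ).imJ ^ 2 = 0 := by
          nlinarith [sq_nonneg (x : Quaternion ℝ).imI, sq_nonneg (x : Quaternion ℝ).imJ, sq_nonneg (x : Quaternion ℝ).imK]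
        exact pow_eq_zero_iff (two_ne_zero) |>.1 this
      have h3 : (x : Quaternion ℝ).imK = 0 := by
        have : (x : Quaternion ℝ).imK ^ 2 = 0 := by
          nlinarith [sq_nonneg (x : Quaternion ℝ).imI, sq_nonneg (x : Quaternion ℝ).imJ, sq_nonneg (x : Quaternion ℝ).imK]
        exact pow_eq_zero_iff (two_ne_zero) |>.1 this
      rw [hYz h1 h2 h3, h0, zero_mul, zero_smul]
    · have hX : (s⁻¹ • Y) * (s⁻¹ • Y) = -1 := by
        rw [smul_mul_smul_comm, hYY, smul_neg, smul_smul, ← hss]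
        have : s⁻¹ * s⁻¹ * s ^ 2 = 1 := by field_simp
        rw [this, one_smul]
      obtain ⟨h, hh⟩ := exists_conj _ hX
      refine ⟨h, ?_⟩
      rw [← hh, smul_mul_assoc, smul_smul, mul_inv_cancel₀ h0, one_smul]
  have hcle := re_mem x
  refine ⟨h, Real.arccos c, ?_, Real.cos_arccos hcle.1 hcle.2⟩
  have hcos : Real.cos (Real.arccos c) = c := Real.cos_arccos hcle.1 hcle.2
  have hsin : Real.sin (Real.arccos c) = s := by
    rw [Real.sin_arccos, hs]
    congr 1
    linarith
  rw [eq_mul_inv_iff_mul_eq]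
  apply Subtype.ext
  show (x : Quaternion ℝ) * (h : Quaternion ℝ) = (h : Quaternion ℝ) * (tor (Real.arccos c) : Quaternion ℝ)
  have ht : (tor (Real.arccos c) : Quaternion ℝ) = c • (1 : Quaternion ℝ) + s • qI := by
    ext
    · simp [tor, hcos]
    · simp [tor, hsin]
    · simp [tor]
    · simp [tor]
  rw [ht, hx, add_mul, hh, mul_add]
  congr 1
  · simp
  · simp

theorem psi_eq (n : ℕ) (x : S3) :
    ∫ g : S3, al ((g⁻¹ * x * g : S3) : Quaternion ℝ) ^ n ∂sg = ((ch n (x : Quaternion ℝ).re : ℝ) : ℂ) / (n + 1) := by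
  obtain ⟨h, θ, hx, hθ⟩ := exists_tor x
  have h1 := int_left h (fun g : S3 => al ((g⁻¹ * x * g : S3) : Quaternion ℝ) ^ n)
  rw [← h1]
  have e1 : ∀ g : S3, (h * g)⁻¹ * x * (h * g) = g⁻¹ * tor θ * g := by
    intro g
    rw [hx]
    group
  simp_rw [e1]
  set z := Complex.exp (θ * Complex.I) with hz
  set w := Complex.exp (-(θ * Complex.I)) with hw
  have e2 : ∀ g : S3, al ((g⁻¹ * tor θ * g : S3) : Quaternion ℝ) ^ n = ∑ k ∈ Finset.range (n + 1),
      (z ^ k * w ^ (n - k) * (n.choose k : ℂ)) * (al (g : Quaternion ℝ) ^ k * conj (al (g : Quaternion ℝ)) ^ k *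
          (be (g : Quaternion ℝ) ^ (n - k) * conj (be (g : Quaternion ℝ)) ^ (n - k))) := by
    intro g
    have e3 : al ((g⁻¹ * tor θ * g : S3) : Quaternion ℝ) =
        (al (g : Quaternion ℝ) * conj (al (g : Quaternion ℝ))) * z + (be (g : Quaternion ℝ) * conj (be (g : Quaternion ℝ))) * w := by
      have e4 : ((g⁻¹ * tor θ * g : S3) : Quaternion ℝ) =
          star (g : Quaternion ℝ) * (tor θ : Quaternion ℝ) * (g : Quaternion ℝ) := by
        rw [← coe_inv_S3]
        rfl
      rw [e4, al_mul, al_mul, be_mul, al_star, be_star, al_tor, be_tor, conj_exp]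
      simp only [mul_zero, map_zero, sub_zero, zero_add]
      ring
    rw [e3, add_pow]
    refine Finset.sum_congr rfl fun k _ => ?_
    simp only [mul_pow]
    ring
  simp_rw [e2]
  have hint : ∀ k ∈ Finset.range (n + 1), Integrable (fun g : S3 => (z ^ k * w ^ (n - k) * (n.choose k : ℂ)) *
      (al (g : Quaternion ℝ) ^ k * conj (al (g : Quaternion ℝ)) ^ k *
          (be (g : Quaternion ℝ) ^ (n - k) * conj (be (g : Quaternion ℝ)) ^ (n - k)))) sg := fun k _ =>
    integrable_of_cont (continuous_const.mul (cont_monom _ _ _ _))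
  rw [integral_finsetSum _ hint]
  have e5 : ∀ k ∈ Finset.range (n + 1), ∫ g : S3, (z ^ k * w ^ (n - k) * (n.choose k : ℂ)) *
      (al (g : Quaternion ℝ) ^ k * conj (al (g : Quaternion ℝ)) ^ k *
          (be (g : Quaternion ℝ) ^ (n - k) * conj (be (g : Quaternion ℝ)) ^ (n - k))) ∂sg =
      z ^ k * w ^ (n - k) * (1 / (n + 1)) := by
    intro k hk
    rw [integral_const_mul]
    have := mom_eq (Nat.lt_succ_iff.1 (Finset.mem_range.1 hk))
    rw [mom_val, mom] at this
    rw [mul_assoc, this]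
  rw [Finset.sum_congr rfl e5, ← Finset.sum_mul]
  have hzw : z * w = 1 := by
    rw [hz, hw, ← Complex.exp_add, add_neg_cancel, Complex.exp_zero]
  have hzw2 : z + w = 2 * ((x : Quaternion ℝ).re : ℝ) := by
    rw [← hθ, Complex.ofReal_cos, Complex.two_cos, hz, hw]
    simp only [neg_mul]
  rw [geom_ch z w _ hzw hzw2 n]
  ring

theorem th_eq (n : ℕ) (x : S3) :
    ((th n x : ℝ) : ℂ) = ((n : ℂ) + 1) ^ 2 * ∫ g : S3, al ((g⁻¹ * x * g : S3) : Quaternion ℝ) ^ n ∂sg := by
  rw [psi_eq, th]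
  have h3 : ((n : ℂ) + 1) ≠ 0 := by exact_mod_cast Nat.succ_ne_zero n
  push_cast
  field_simp

/-- idempotence of the kernel -/
theorem th_idem (n : ℕ) (x : S3) : ∫ y : S3, ((th n (x * y) : ℝ) : ℂ) * ((th n y : ℝ) : ℂ) ∂sg = ((th n x : ℝ) : ℂ) := by
  have e1 : ∀ y : S3, ((th n (x * y) : ℝ) : ℂ) * ((th n y : ℝ) : ℂ) =
      ((n : ℂ) + 1) ^ 2 * ∫ g : S3, al ((g⁻¹ * (x * y) * g : S3) : Quaternion ℝ) ^ n * ((th n y : ℝ) : ℂ) ∂sg := by
    intro y
    rw [th_eq n (x * y), integral_mul_const, mul_assoc]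
  simp_rw [e1]
  rw [integral_const_mul]
  have hcont : Continuous (uncurry fun (y g : S3) => al ((g⁻¹ * (x * y) * g : S3) : Quaternion ℝ) ^ n * ((th n y : ℝ) : ℂ)) := by
    have h1 : Continuous fun p : S3 × S3 => (p.2⁻¹ * (x * p.1) * p.2 : S3) := by fun_prop
    exact ((cont_al.comp h1).pow n).mul ((cont_thc n).comp continuous_fst)
  rw [integral_integral_swap (hcont.integrable_of_hasCompactSupport (HasCompactSupport.of_compactSpace _))]
  have e2 : ∀ g : S3, ∫ y : S3, al ((g⁻¹ * (x * y) * g : S3) : Quaternion ℝ) ^ n * ((th n y : ℝ) : ℂ) ∂sg =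
      al ((g⁻¹ * x * g : S3) : Quaternion ℝ) ^ n := by
    intro g
    have h1 := int_conj g (fun y : S3 => al ((g⁻¹ * (x * y) * g : S3) : Quaternion ℝ) ^ n * ((th n y : ℝ) : ℂ))
    have h2 := repr_std n 1 0 (g⁻¹ * x * g)
    simp only [one_mul, zero_mul, add_zero] at h2
    rw [← h1, ← h2]
    refine integral_congr_ae (Filter.Eventually.of_forall fun y => ?_)
    have h3 : g⁻¹ * (x * (g * y * g⁻¹)) * g = g⁻¹ * x * g * y := by group
    simp only [h3, th_conj]
  simp_rw [e2]
  rw [th_eq]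

/-! ### products -/

section prod
variable {V : Type*} [Fintype V]

/-- the product kernel -/
noncomputable def TH (n : V → ℕ) (x : V → S3) : ℝ := ∏ v, th (n v) (x v)

/-- the product measure -/
noncomputable def sgV (V : Type*) [Fintype V] : Measure (V → S3) := Measure.pi fun _ => sg

instance : IsProbabilityMeasure (sgV V) := by unfold sgV; infer_instance

theorem cont_TH (n : V → ℕ) : Continuous (TH n) :=
  continuous_finsetProd _ fun v _ => (cont_th (n v)).comp (continuous_apply v)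

theorem TH_conj (n : V → ℕ) (g x : V → S3) : TH n (g * x * g⁻¹) = TH n x :=
  Finset.prod_congr rfl fun v _ => th_conj (n v) (g v) (x v)

theorem TH_inv (n : V → ℕ) (x : V → S3) : TH n x⁻¹ = TH n x :=
  Finset.prod_congr rfl fun v _ => th_inv (n v) (x v)

theorem TH_idem (n : V → ℕ) (x : V → S3) : ∫ y, TH n (x * y) * TH n y ∂(sgV V) = TH n x := by
  have h1 : ∀ v, ∫ y : S3, th (n v) (x v * y) * th (n v) y ∂sg = th (n v) (x v) := by
    intro v
    have h := th_idem (n v) (x v)
    have e : ∀ y : S3, ((th (n v) (x v * y) : ℝ) : ℂ) * ((th (n v) y : ℝ) : ℂ) =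
        ((th (n v) (x v * y) * th (n v) y : ℝ) : ℂ) := fun y => by push_cast; ring
    simp_rw [e] at h
    rw [integral_complex_ofReal] at h
    exact Complex.ofReal_injective h
  have h2 := integral_fintype_prod_eq_prod (𝕜 := ℝ) (μ := fun _ : V => sg)
    (fun (v : V) (y : S3) => th (n v) (x v * y) * th (n v) y)
  rw [TH, sgV]
  calc _ = ∫ y : V → S3, ∏ v, (th (n v) (x v * y v) * th (n v) (y v)) ∂(Measure.pi fun _ => sg) := by
        refine integral_congr_ae (Filter.Eventually.of_forall fun y => ?_)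
        simp only [TH, Finset.prod_mul_distrib, Pi.mul_apply]
    _ = _ := by
        rw [h2]
        exact Finset.prod_congr rfl fun v _ => h1 v

theorem integrable_V {F : (V → S3) → ℂ} (h : Continuous F) : Integrable F (sgV V) :=
  h.integrable_of_hasCompactSupport (HasCompactSupport.of_compactSpace _)

/-- the reproducing property for harmonic functions -/
theorem repr_harm {n : V → ℕ} {P : (V → Quaternion ℝ) → ℂ} (hP : P ∈ harm n) (x : V → S3) :
    ∫ y : V → S3, P (fun v => ((x v * y v : S3) : Quaternion ℝ)) * ((TH n y : ℝ) : ℂ) ∂(sgV V) =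
      P (fun v => (x v : Quaternion ℝ)) := by
  have hcy : Continuous fun y : V → S3 => fun v => ((x v * y v : S3) : Quaternion ℝ) := by
    refine continuous_pi fun v => continuous_subtype_val.comp ?_
    exact continuous_const.mul (continuous_apply v)
  have hthc : Continuous fun y : V → S3 => ((TH n y : ℝ) : ℂ) := Complex.continuous_ofReal.comp (cont_TH n)
  have key : Continuous P ∧ ∫ y : V → S3, P (fun v => ((x v * y v : S3) : Quaternion ℝ)) * ((TH n y : ℝ) : ℂ) ∂(sgV V) =
      P (fun v => (x v : Quaternion ℝ)) := by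
    refine Submodule.span_induction (p := fun P _ => Continuous P ∧
      ∫ y : V → S3, P (fun v => ((x v * y v : S3) : Quaternion ℝ)) * ((TH n y : ℝ) : ℂ) ∂(sgV V) =
      P (fun v => (x v : Quaternion ℝ))) ?_ ?_ ?_ ?_ hP
    · rintro P ⟨l, hl, rfl⟩
      have hc := fun v => continuous_lin (l v)
      refine ⟨by fun_prop, ?_⟩
      have h2 := integral_fintype_prod_eq_prod (𝕜 := ℂ) (μ := fun _ : V => sg)
        (fun (v : V) (y : S3) => l v ((x v * y : S3) : Quaternion ℝ) ^ n v * ((th (n v) y : ℝ) : ℂ))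
      rw [sgV]
      calc _ = ∫ y : V → S3, ∏ v, (l v ((x v * y v : S3) : Quaternion ℝ) ^ n v * ((th (n v) (y v) : ℝ) : ℂ))
            ∂(Measure.pi fun _ => sg) := by
            refine integral_congr_ae (Filter.Eventually.of_forall fun y => ?_)
            simp only [TH, Finset.prod_mul_distrib, Complex.ofReal_prod]
        _ = _ := by
            rw [h2]
            exact Finset.prod_congr rfl fun v _ => repr_null (hl v) (n v) (x v)
    · refine ⟨continuous_const, ?_⟩
      simp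
    · intro P Q _ _ hP hQ
      refine ⟨hP.1.add hQ.1, ?_⟩
      have h3 := integral_add (integrable_V ((hP.1.comp hcy).mul hthc)) (integrable_V ((hQ.1.comp hcy).mul hthc))
      simp only [Pi.add_apply, add_mul]
      exact h3.trans (by rw [← hP.2, ← hQ.2]; rfl)
    · intro c P _ hP
      refine ⟨continuous_const.mul hP.1, ?_⟩
      simp only [Pi.smul_apply, smul_eq_mul, mul_assoc]
      rw [integral_const_mul, hP.2]
  exact key.2

/-- the bound for the kernel -/
theorem TH_le (n : V → ℕ) (x : V → S3) {s : V → ℝ} (hs : ∀ v, 0 < s v)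
    (h : ∀ v, s v ≤ 1 / ((n v : ℝ) + 1) ∨ s v ≤ Real.sqrt (1 - (x v : Quaternion ℝ).re ^ 2)) :
    |TH n x| ≤ ∏ v, (((n v : ℝ) + 1) * (s v)⁻¹) := by
  rw [TH, Finset.abs_prod]
  refine Finset.prod_le_prod (fun v _ => abs_nonneg _) fun v _ => ?_
  rw [th, abs_mul, abs_of_pos (show (0 : ℝ) < (n v : ℝ) + 1 by positivity)]
  refine mul_le_mul_of_nonneg_left ?_ (by positivity)
  have hr := re_mem (x v)
  have hsv := hs v
  rw [← one_div, le_div_iff₀ hsv]
  rcases h v with h | h
  · calc |ch (n v) (x v : Quaternion ℝ).re| * s v ≤ ((n v : ℝ) + 1) * (1 / ((n v : ℝ) + 1)) :=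
          mul_le_mul (ch_le (n v) hr.1 hr.2) h hsv.le (by positivity)
      _ = 1 := by field_simp
  · calc |ch (n v) (x v : Quaternion ℝ).re| * s v ≤
          |ch (n v) (x v : Quaternion ℝ).re| * Real.sqrt (1 - (x v : Quaternion ℝ).re ^ 2) :=
          mul_le_mul_of_nonneg_left h (abs_nonneg _)
      _ ≤ 1 := ch_mul_le (n v) hr.1 hr.2

end prod

end Pool.Agent.H496.R4
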