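import Pool.Agent.H496.A1.Core
import Pool.Agent.H496.R4.Pack
import Pool.Agent.H496.R4.Rep4

/-! Counting group elements. -/

set_option autoImplicit false

namespace Pool.Agent.H496.R4

open MeasureTheory Set Function
open UpperHalfPlane hiding I
open scoped ENNReal NNReal MatrixGroups
open Pool.Agent.H496
open Pool.Agent.T2H31 (rad EB)

theorem normsq_Q (q : Quaternion ℝ) : ‖q‖ ^ 2 = q.re ^ 2 + q.imI ^ 2 + q.imJ ^ 2 + q.imK ^ 2 := by
  rw [sq, ← Quaternion.normSq_eq_norm_mul_self, Quaternion.normSq_def']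

/-- the length of the imaginary part of a unit quaternion -/
noncomputable def sn (q : Quaternion ℝ) : ℝ := Real.sqrt (1 - q.re ^ 2)

/-- the cell of a quaternion -/
noncomputable def cell (h : ℝ) (q : Quaternion ℝ) : Bool × ℤ × ℤ × ℤ × ℤ :=
  (decide (0 ≤ q.re), ⌊(1 - |q.re|) / h⌋, ⌊q.imI / h⌋, ⌊q.imJ / h⌋, ⌊q.imK / h⌋)

/-- the possible cells -/
noncomputable def cells (m : ℕ) : Finset (Bool × ℤ × ℤ × ℤ × ℤ) :=
  Finset.univ ×ˢ (Finset.Icc (-(m : ℤ)) m ×ˢ (Finset.Icc (-(m : ℤ)) m ×ˢ (Finset.Icc (-(m : ℤ)) m ×ˢ Finset.Icc (-(m : ℤ)) m)))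

theorem card_cells (m : ℕ) : (cells m).card = 2 * (2 * m + 1) ^ 4 := by
  simp only [cells, Finset.card_product, Finset.card_univ, Fintype.card_bool, Int.card_Icc]
  have : (m + 1 - -(m : ℤ)).toNat = 2 * m + 1 := by omega
  rw [this]
  ring

theorem sn_sq {q : Quaternion ℝ} (hq : ‖q‖ = 1) : sn q ^ 2 = 1 - q.re ^ 2 ∧ sn q ^ 2 = q.imI ^ 2 + q.imJ ^ 2 + q.imK ^ 2 := by
  have h1 : ‖q‖ ^ 2 = 1 := by rw [hq, one_pow]
  rw [normsq_Q] at h1
  have h2 : 0 ≤ 1 - q.re ^ 2 := by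
    have := sq_nonneg q.imI
    have := sq_nonneg q.imJ
    have := sq_nonneg q.imK
    linarith
  have h3 : sn q ^ 2 = 1 - q.re ^ 2 := Real.sq_sqrt h2
  exact ⟨h3, by rw [h3]; linarith⟩

theorem sn_nonneg (q : Quaternion ℝ) : 0 ≤ sn q := Real.sqrt_nonneg _

theorem sn_le_one (q : Quaternion ℝ) : sn q ≤ 1 := by
  rw [sn, Real.sqrt_le_one]
  have := sq_nonneg q.re
  linarith

theorem floor_mem {x h φ : ℝ} {m : ℕ} (hh : 0 < h) (hm : φ = m * h) (hx : |x| ≤ φ) : ⌊x / h⌋ ∈ Finset.Icc (-(m : ℤ)) m := by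
  have h1 := abs_le.1 hx
  rw [Finset.mem_Icc, Int.le_floor]
  constructor
  · push_cast
    rw [le_div_iff₀ hh]
    linarith
  · have : ⌊x / h⌋ ≤ ⌊(m : ℝ)⌋ := Int.floor_le_floor (by
      rw [div_le_iff₀ hh]
      linarith)
    simpa using this

theorem cell_mem {q : Quaternion ℝ} (hq : ‖q‖ = 1) {φ h : ℝ} {m : ℕ} (hh : 0 < h) (hm : φ = m * h) (hφ : φ ≤ 1)
    (hs : sn q ≤ φ) : cell h q ∈ cells m := by
  obtain ⟨h1, h2⟩ := sn_sq hq
  have h0 := sn_nonneg q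
  have hφ0 : 0 ≤ φ := h0.trans hs
  have h3 : sn q ^ 2 ≤ φ ^ 2 := by gcongr
  have hi : ∀ y : ℝ, y ^ 2 ≤ sn q ^ 2 → |y| ≤ φ := fun y hy =>
    (abs_le_of_sq_le_sq (hy.trans h3) hφ0)
  simp only [cell, cells, Finset.mem_product, Finset.mem_univ, true_and]
  refine ⟨floor_mem hh hm ?_, floor_mem hh hm ?_, floor_mem hh hm ?_, floor_mem hh hm ?_⟩
  · have h4 : |q.re| ≤ 1 := by
      apply abs_le_of_sq_le_sq _ zero_le_one
      have := sq_nonneg (sn q)
      linarith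
    have h5 : q.re ^ 2 = |q.re| ^ 2 := (sq_abs _).symm
    have h6 := abs_nonneg q.re
    rw [abs_of_nonneg (by linarith)]
    nlinarith
  · apply hi
    rw [h2]
    nlinarith [sq_nonneg q.imJ, sq_nonneg q.imK]
  · apply hi
    rw [h2]
    nlinarith [sq_nonneg q.imI, sq_nonneg q.imK]
  · apply hi
    rw [h2]
    nlinarith [sq_nonneg q.imI, sq_nonneg q.imJ]

theorem cell_close {q q' : Quaternion ℝ} {h : ℝ} (hh : 0 < h) (hc : cell h q = cell h q') : ‖q - q'‖ ^ 2 ≤ 4 * h ^ 2 := by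
  simp only [cell, Prod.mk.injEq] at hc
  obtain ⟨c0, c1, c2, c3, c4⟩ := hc
  have key : ∀ x y : ℝ, ⌊x / h⌋ = ⌊y / h⌋ → (x - y) ^ 2 ≤ h ^ 2 := by
    intro x y hxy
    have h1 := Int.abs_sub_lt_one_of_floor_eq_floor hxy
    rw [← sub_div, abs_div, abs_of_pos hh, div_lt_one hh] at h1
    rw [← sq_abs (x - y)]
    gcongr
  have k1 := key _ _ c1
  have k2 := key _ _ c2
  have k3 := key _ _ c3
  have k4 := key _ _ c4
  have k0 : (q.re - q'.re) ^ 2 ≤ h ^ 2 := by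
    have h1 : (1 - |q.re| - (1 - |q'.re|)) ^ 2 = (|q.re| - |q'.re|) ^ 2 := by ring
    rw [h1] at k1
    by_cases h2 : 0 ≤ q.re
    · have h3 : 0 ≤ q'.re := by
        rw [decide_eq_decide] at c0
        exact c0.1 h2
      rwa [abs_of_nonneg h2, abs_of_nonneg h3] at k1
    · have h3 : ¬ 0 ≤ q'.re := by
        rw [decide_eq_decide] at c0
        exact fun h => h2 (c0.2 h)
      push Not at h2 h3
      rw [abs_of_neg h2, abs_of_neg h3] at k1
      linarith [show (-q.re - -q'.re) ^ 2 = (q.re - q'.re) ^ 2 by ring]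
  rw [normsq_Q]
  have e0 : (q - q').re = q.re - q'.re := rfl
  have e1 : (q - q').imI = q.imI - q'.imI := rfl
  have e2 : (q - q').imJ = q.imJ - q'.imJ := rfl
  have e3 : (q - q').imK = q.imK - q'.imK := rfl
  rw [e0, e1, e2, e3]
  linarith

section count
variable {W V G : Type*} [Fintype W] [DecidableEq W] [Fintype V] [Group G]
  (r : W → G →* SL(2, ℝ)) (σ : V → G →* Quaternion ℝ) (hσ : ∀ v γ, ‖σ v γ‖ = 1)
  {w₀ : W} {U Q : ℝ} {L : W → ℝ}

include hσ

theorem count_fiber (hU : 6 ≤ U) (hL : ∀ w, 1 ≤ L w)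
    (hQ : ∀ γ, γ ≠ 1 → Q ≤ (∏ w, |2 - (r w γ 0 0 + r w γ 1 1)|) * ∏ v, ‖σ v γ - 1‖ ^ 2)
    {ε : V → ℝ} (hε : ∀ v, 0 < ε v)
    (hlarge : 12 * 6 ^ Fintype.card W * ∏ v, ε v ≤ Q) {z₀ z : W → ℍ} (S : Finset G)
    (hS : ∀ γ ∈ S, ∀ w, r w γ • z w ∈ BB w₀ U L w (z₀ w))
    (hclose : ∀ γ ∈ S, ∀ γ' ∈ S, ∀ v, ‖σ v γ - σ v γ'‖ ^ 2 ≤ ε v) :
    (S.card : ℝ) ≤ 1 + 40 * U * (4 * 6 ^ Fintype.card W * ∏ v, ε v) / Q := by
  classical
  have hP0 : 0 < ∏ v, ε v := Finset.prod_pos fun v _ => hε v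
  have h6 : (0 : ℝ) < 6 ^ Fintype.card W := by positivity
  have hQ0 : 0 < Q := lt_of_lt_of_le (by positivity) hlarge
  set D : ℝ := 4 * 6 ^ Fintype.card W * ∏ v, ε v with hD
  have hD0 : 0 < D := by positivity
  have hQD : 3 ≤ Q / D := by
    rw [le_div_iff₀ hD0, hD]
    linarith
  have key := pack_points S (fun γ => r w₀ γ • z w₀) (z₀ w₀) (Q := Q / D) (T := 2 * U) hQD (by linarith)
    (fun γ hγ => ?_) (fun γ hγ γ' hγ' hne => ?_)
  · refine key.trans (le_of_eq ?_)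
    field_simp
    ring
  · have h1 := hS γ hγ w₀
    rw [BB, if_pos rfl, Metric.mem_closedBall, dist_comm] at h1
    have h2 : Real.cosh (dist (z₀ w₀) (r w₀ γ • z w₀)) ≤ Real.cosh (rad U) := by
      rw [Real.cosh_le_cosh, abs_of_nonneg dist_nonneg, abs_of_nonneg (rad_nonneg U)]
      exact h1
    rw [cosh_rad (by linarith)] at h2
    linarith
  · set δ := γ' * γ⁻¹ with hδ
    have hδ1 : δ ≠ 1 := by
      intro h
      apply hne
      rw [hδ, mul_inv_eq_one] at h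
      exact h.symm
    have hδγ : δ * γ = γ' := by rw [hδ]; group
    have kk := hQ δ hδ1
    set C : ℝ := Real.cosh (dist (r w₀ γ • z w₀) (r w₀ γ' • z w₀) / 2) with hC
    have hC1 : 1 ≤ C := Real.one_le_cosh _
    have hw : ∀ w, |2 - (r w δ 0 0 + r w δ 1 1)| ≤ if w = w₀ then 4 * C else 6 := by
      intro w
      have a1 := hS γ hγ w
      have a2 := hS γ' hγ' w
      rw [← hδγ, map_mul, mul_smul] at a2
      split_ifs with h
      · have h4 := abs_tr_le (r w δ) (r w γ • z w)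
        have h5 : r w δ • r w γ • z w = r w γ' • z w := by rw [← mul_smul, ← map_mul, hδγ]
        rw [h5, h, ← hC] at h4
        rw [h]
        have h7 := abs_le.1 h4
        rw [abs_le]
        constructor <;> linarith
      · rw [BB, if_neg h] at a1 a2
        have hLw := hL w
        have hs : 1 ≤ Real.sqrt (L w) := Real.one_le_sqrt.2 hLw
        refine two_sub_tr_loc (ρ := 1 / (2 * Real.sqrt (L w))) (by positivity) ?_ _ _ _ a1 a2
        gcongr
        linarith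
    have hv : ∀ v, ‖σ v δ - 1‖ ^ 2 ≤ ε v := by
      intro v
      have h1 := hclose γ' hγ' γ hγ v
      have e : σ v γ' - σ v γ = (σ v δ - 1) * σ v γ := by
        rw [sub_mul, one_mul, ← map_mul, hδγ]
      rwa [e, norm_mul, hσ, mul_one] at h1
    have c1 : (∏ w, |2 - (r w δ 0 0 + r w δ 1 1)|) ≤ 4 * C * 6 ^ Fintype.card W := by
      calc (∏ w, |2 - (r w δ 0 0 + r w δ 1 1)|) ≤ ∏ w, (if w = w₀ then 4 * C else 6) :=
            Finset.prod_le_prod (fun w _ => abs_nonneg _) fun w _ => hw w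
        _ ≤ ∏ w, ((if w = w₀ then 4 * C else 1) * 6) := by
            refine Finset.prod_le_prod (fun w _ => by split_ifs <;> positivity) fun w _ => ?_
            split_ifs <;> nlinarith
        _ = 4 * C * 6 ^ Fintype.card W := by
            rw [Finset.prod_mul_distrib, Finset.prod_ite_eq' Finset.univ w₀ fun _ => 4 * C]
            simp
    have c2 : ∏ v, ‖σ v δ - 1‖ ^ 2 ≤ ∏ v, ε v :=
      Finset.prod_le_prod (fun v _ => sq_nonneg _) fun v _ => hv v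
    have c3 : (∏ w, |2 - (r w δ 0 0 + r w δ 1 1)|) * ∏ v, ‖σ v δ - 1‖ ^ 2 ≤
        4 * C * 6 ^ Fintype.card W * ∏ v, ε v :=
      mul_le_mul c1 c2 (Finset.prod_nonneg fun v _ => sq_nonneg _) (by positivity)
    rw [div_le_iff₀ hD0, hD]
    calc Q ≤ 4 * C * 6 ^ Fintype.card W * ∏ v, ε v := kk.trans c3
      _ = _ := by ring

theorem count_all (hU : 6 ≤ U) (hL : ∀ w, 1 ≤ L w)
    (hQ : ∀ γ, γ ≠ 1 → Q ≤ (∏ w, |2 - (r w γ 0 0 + r w γ 1 1)|) * ∏ v, ‖σ v γ - 1‖ ^ 2)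
    {m : ℕ} (hm : 0 < m) {φ : V → ℝ} (hφ : ∀ v, 0 < φ v) (hφ1 : ∀ v, φ v ≤ 1)
    (hlarge : 12 * 6 ^ Fintype.card W * (4 / (m : ℝ) ^ 2) ^ Fintype.card V ≤ Q) {z₀ z : W → ℍ} (S : Finset G)
    (hS : ∀ γ ∈ S, ∀ w, r w γ • z w ∈ BB w₀ U L w (z₀ w))
    (hsn : ∀ γ ∈ S, ∀ v, sn (σ v γ) ≤ φ v) :
    (S.card : ℝ) ≤ (2 * (2 * m + 1) ^ 4) ^ Fintype.card V *
      (1 + 40 * U * (4 * 6 ^ Fintype.card W * (4 / (m : ℝ) ^ 2) ^ Fintype.card V * ∏ v, φ v ^ 2) / Q) := by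
  classical
  have hm' : (0 : ℝ) < m := by exact_mod_cast hm
  set c : G → V → (Bool × ℤ × ℤ × ℤ × ℤ) := fun γ v => cell (φ v / m) (σ v γ) with hc
  have hmem : ∀ γ ∈ S, c γ ∈ Fintype.piFinset fun _ : V => cells m := by
    intro γ hγ
    rw [Fintype.mem_piFinset]
    intro v
    have := hφ v
    exact cell_mem (hσ v γ) (φ := φ v) (by positivity) (by field_simp) (hφ1 v) (hsn γ hγ v)
  have hprod : ∏ v, (4 * (φ v / m) ^ 2) = (4 / (m : ℝ) ^ 2) ^ Fintype.card V * ∏ v, φ v ^ 2 := by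
    rw [← Finset.card_univ, ← Finset.prod_const, ← Finset.prod_mul_distrib]
    refine Finset.prod_congr rfl fun v _ => ?_
    field_simp
  have hφ2 : ∏ v, φ v ^ 2 ≤ 1 := by
    refine Finset.prod_le_one (fun v _ => sq_nonneg _) fun v _ => ?_
    have := hφ v
    have := hφ1 v
    nlinarith
  have hfib : ∀ b ∈ Fintype.piFinset (fun _ : V => cells m), ((S.filter fun γ => c γ = b).card : ℝ) ≤
      1 + 40 * U * (4 * 6 ^ Fintype.card W * (4 / (m : ℝ) ^ 2) ^ Fintype.card V * ∏ v, φ v ^ 2) / Q := by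
    intro b _
    have h1 := count_fiber r σ hσ (w₀ := w₀) hU hL hQ (ε := fun v => 4 * (φ v / m) ^ 2) (fun v => by
        have := hφ v
        positivity) (by
        rw [hprod]
        refine le_trans ?_ hlarge
        have h2 : 0 ≤ 12 * 6 ^ Fintype.card W * (4 / (m : ℝ) ^ 2) ^ Fintype.card V := by positivity
        nlinarith) (z₀ := z₀) (z := z) (S.filter fun γ => c γ = b)
      (fun γ hγ => hS γ (Finset.mem_filter.1 hγ).1)
      (fun γ hγ γ' hγ' v => by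
        have e1 := congrFun (Finset.mem_filter.1 hγ).2 v
        have e2 := congrFun (Finset.mem_filter.1 hγ').2 v
        have := hφ v
        exact cell_close (by positivity) (e1.trans e2.symm))
    rw [hprod] at h1
    refine h1.trans (le_of_eq ?_)
    ring
  have h1 := Finset.card_eq_sum_card_fiberwise (f := c) (s := S) (t := Fintype.piFinset fun _ : V => cells m) hmem
  have h2 : (S.card : ℝ) = ∑ b ∈ Fintype.piFinset (fun _ : V => cells m), ((S.filter fun γ => c γ = b).card : ℝ) := by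
    rw [h1]
    push_cast
    rfl
  rw [h2]
  refine (Finset.sum_le_sum hfib).trans (le_of_eq ?_)
  rw [Finset.sum_const, nsmul_eq_mul, Fintype.card_piFinset, Finset.prod_const, card_cells]
  push_cast
  rfl

end count

end Pool.Agent.H496.R4
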