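import Pool.Agent.H496.R4.Count

/-! The sum of the kernel over the group. -/

set_option autoImplicit false

namespace Pool.Agent.H496.R4

open MeasureTheory Set Function
open UpperHalfPlane hiding I
open scoped ENNReal NNReal MatrixGroups
open Pool.Agent.H496
open Pool.Agent.T2H31 (rad EB)

/-- the number of dyadic scales -/
def scl (n : ℕ) : ℕ := Nat.clog 2 (n + 1)

theorem scl_ge (n : ℕ) : ((n : ℝ) + 1) ≤ 2 ^ scl n := by
  have := Nat.le_pow_clog (b := 2) (by norm_num) (n + 1)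
  exact_mod_cast this

theorem scl_le (n : ℕ) : (2 : ℝ) ^ scl n ≤ 2 * ((n : ℝ) + 1) := by
  rcases Nat.eq_zero_or_pos n with rfl | hn
  · simp [scl]
  · have h := Nat.pow_pred_clog_lt_self (b := 2) (by norm_num) (show 1 < n + 1 by omega)
    have hpos : 0 < scl n := Nat.clog_pos (by norm_num) (by omega)
    have h2 : (2 : ℕ) ^ scl n = 2 * 2 ^ (Nat.clog 2 (n + 1)).pred := by
      have : scl n = (Nat.clog 2 (n + 1)).pred + 1 := (Nat.succ_pred_eq_of_pos hpos).symm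
      rw [this, pow_succ]
      ring
    have h3 : (2 : ℕ) ^ scl n ≤ 2 * (n + 1) := by
      rw [h2]
      omega
    exact_mod_cast h3

theorem geom1 (N : ℕ) : ∑ k ∈ Finset.range (N + 1), (2 : ℝ) ^ (k + 1) ≤ 4 * 2 ^ N := by
  induction N with
  | zero => norm_num
  | succ N ih =>
    rw [Finset.sum_range_succ]
    have h1 : (2 : ℝ) ^ (N + 1 + 1) = 4 * 2 ^ N := by ring
    have h2 : (2 : ℝ) ^ (N + 1) = 2 * 2 ^ N := by ring
    rw [h1, h2]
    linarith

theorem geom2 (N : ℕ) : ∑ k ∈ Finset.range (N + 1), (2 : ℝ) ^ (k + 1) * ((1 / 2) ^ k) ^ 2 ≤ 4 := by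
  have e : ∀ k : ℕ, (2 : ℝ) ^ (k + 1) * ((1 / 2) ^ k) ^ 2 = 2 * (1 / 2) ^ k := by
    intro k
    have h1 : (2 : ℝ) ^ k * (1 / 2) ^ k = 1 := by rw [← mul_pow]; norm_num
    calc (2 : ℝ) ^ (k + 1) * ((1 / 2) ^ k) ^ 2 = 2 * (2 ^ k * (1 / 2) ^ k) * (1 / 2) ^ k := by ring
      _ = _ := by rw [h1, mul_one]
  simp_rw [e]
  rw [← Finset.mul_sum]
  have h : ∑ k ∈ Finset.range (N + 1), (1 / 2 : ℝ) ^ k = 2 - (1 / 2) ^ N := by
    induction N with
    | zero => norm_num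
    | succ N ih =>
      rw [Finset.sum_range_succ, ih]
      ring
  have h2 : (0 : ℝ) ≤ (1 / 2) ^ N := by positivity
  rw [h]
  linarith

section kern
variable {W V G : Type*} [Fintype W] [DecidableEq W] [Fintype V] [DecidableEq V] [Group G]
  (r : W → G →* SL(2, ℝ)) (σ : V → G →* Quaternion ℝ) (hσ : ∀ v γ, ‖σ v γ‖ = 1)
  {w₀ : W} {U Q : ℝ} {L : W → ℝ}

/-- the element of the compact group -/
noncomputable def sS (γ : G) (v : V) : S3 := ⟨σ v γ, mem_sphere_zero_iff_norm.2 (hσ v γ)⟩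

omit [Fintype V] [DecidableEq V] in
theorem sn_eq (γ : G) (v : V) : sn (σ v γ) = Real.sqrt (1 - ((sS σ hσ γ v : S3) : Quaternion ℝ).re ^ 2) := rfl

/-- the scale of a group element -/
theorem exists_scale (n : V → ℕ) (γ : G) : ∃ i ∈ Fintype.piFinset fun v => Finset.range (scl (n v) + 1),
    (∀ v, sn (σ v γ) ≤ (1 / 2) ^ (i v)) ∧ |TH n (sS σ hσ γ)| ≤ ∏ v, (((n v : ℝ) + 1) * 2 ^ (i v + 1)) := by
  classical
  set i : V → ℕ := fun v => Nat.findGreatest (fun k => sn (σ v γ) ≤ (1 / 2 : ℝ) ^ k) (scl (n v)) with hi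
  have h0 : ∀ v, (fun k => sn (σ v γ) ≤ (1 / 2 : ℝ) ^ k) 0 := fun v => by
    simpa using sn_le_one (σ v γ)
  have h1 : ∀ v, sn (σ v γ) ≤ (1 / 2 : ℝ) ^ (i v) := fun v =>
    Nat.findGreatest_spec (P := fun k => sn (σ v γ) ≤ (1 / 2 : ℝ) ^ k) (Nat.zero_le _) (h0 v)
  have h2 : ∀ v, i v ≤ scl (n v) := fun v => Nat.findGreatest_le _
  refine ⟨i, ?_, h1, ?_⟩
  · rw [Fintype.mem_piFinset]
    intro v
    exact Finset.mem_range.2 (Nat.lt_succ_of_le (h2 v))
  · have key := TH_le n (sS σ hσ γ) (s := fun v => (1 / 2 : ℝ) ^ (i v + 1)) (fun v => by positivity) (fun v => ?_)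
    · refine key.trans (le_of_eq ?_)
      refine Finset.prod_congr rfl fun v _ => ?_
      rw [one_div, inv_pow, inv_inv]
    · rcases (h2 v).eq_or_lt with h3 | h3
      · left
        rw [h3, one_div, inv_pow, one_div]
        have h4 := scl_ge (n v)
        have h5 : (2 : ℝ) ^ (scl (n v) + 1) = 2 * 2 ^ scl (n v) := by ring
        apply inv_anti₀ (by positivity)
        rw [h5]
        have : (0 : ℝ) < 2 ^ scl (n v) := by positivity
        linarith
      · right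
        rw [← sn_eq]
        by_contra hlt
        push Not at hlt
        have h4 : i v + 1 ≤ i v := Nat.le_findGreatest (P := fun k => sn (σ v γ) ≤ (1 / 2 : ℝ) ^ k) h3 hlt.le
        omega

/-- the constant -/
noncomputable def KK (W V : Type*) [Fintype W] [Fintype V] (m : ℕ) (U Q : ℝ) (n : V → ℕ) : ℝ :=
  (2 * (2 * m + 1) ^ 4) ^ Fintype.card V * (∏ v, ((n v : ℝ) + 1)) *
    (8 ^ Fintype.card V * (∏ v, ((n v : ℝ) + 1)) +
      40 * U * (4 * 6 ^ Fintype.card W * (4 / (m : ℝ) ^ 2) ^ Fintype.card V * 4 ^ Fintype.card V) / Q)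

theorem sum_kernel_finset (hU : 6 ≤ U) (hL : ∀ w, 1 ≤ L w) (hQ0 : 0 < Q)
    (hQ : ∀ γ, γ ≠ 1 → Q ≤ (∏ w, |2 - (r w γ 0 0 + r w γ 1 1)|) * ∏ v, ‖σ v γ - 1‖ ^ 2)
    {m : ℕ} (hm : 0 < m)
    (hlarge : 12 * 6 ^ Fintype.card W * (4 / (m : ℝ) ^ 2) ^ Fintype.card V ≤ Q) (n : V → ℕ) {z₀ z : W → ℍ} (S : Finset G)
    (hS : ∀ γ ∈ S, ∀ w, r w γ • z w ∈ BB w₀ U L w (z₀ w)) :
    ∑ γ ∈ S, |TH n (sS σ hσ γ)| ≤ KK W V m U Q n := by
  classical
  set I := Fintype.piFinset fun v : V => Finset.range (scl (n v) + 1) with hI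
  set a : (V → ℕ) → ℝ := fun i => ∏ v, (((n v : ℝ) + 1) * 2 ^ (i v + 1)) with ha
  set P : G → (V → ℕ) → Prop := fun γ i => ∀ v, sn (σ v γ) ≤ (1 / 2 : ℝ) ^ (i v) with hP
  have ha0 : ∀ i, 0 ≤ a i := fun i => Finset.prod_nonneg fun v _ => by positivity
  have h1 : ∀ γ, |TH n (sS σ hσ γ)| ≤ ∑ i ∈ I, if P γ i then a i else 0 := by
    intro γ
    obtain ⟨i, hi, h2, h3⟩ := exists_scale σ hσ n γ
    refine h3.trans ?_
    have h4 : (if P γ i then a i else 0) ≤ ∑ i ∈ I, if P γ i then a i else 0 :=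
      Finset.single_le_sum (f := fun i => if P γ i then a i else 0) (fun j _ => by
        have := ha0 j
        split_ifs <;> simp [this]) hi
    rwa [if_pos (show P γ i from h2)] at h4
  have h2 : ∀ i ∈ I, ((S.filter fun γ => P γ i).card : ℝ) ≤ (2 * (2 * m + 1) ^ 4) ^ Fintype.card V *
      (1 + 40 * U * (4 * 6 ^ Fintype.card W * (4 / (m : ℝ) ^ 2) ^ Fintype.card V * ∏ v, ((1 / 2 : ℝ) ^ (i v)) ^ 2) / Q) := by
    intro i _
    exact count_all r σ hσ hU hL hQ hm (φ := fun v => (1 / 2 : ℝ) ^ (i v)) (fun v => by positivity)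
      (fun v => pow_le_one₀ (by norm_num) (by norm_num)) hlarge (S.filter fun γ => P γ i)
      (fun γ hγ => hS γ (Finset.mem_filter.1 hγ).1) (fun γ hγ => (Finset.mem_filter.1 hγ).2)
  set K : ℝ := (2 * (2 * m + 1) ^ 4) ^ Fintype.card V with hK
  have hK0 : 0 ≤ K := by positivity
  set c : ℝ := 40 * U * (4 * 6 ^ Fintype.card W * (4 / (m : ℝ) ^ 2) ^ Fintype.card V) / Q with hc
  have hc0 : 0 ≤ c := by positivity
  have e1 : ∑ i ∈ I, a i = ∏ v : V, ((n v : ℝ) + 1) * ∑ k ∈ Finset.range (scl (n v) + 1), (2 : ℝ) ^ (k + 1) := by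
    simp_rw [Finset.mul_sum]
    rw [Finset.prod_univ_sum]
  have e2 : ∑ i ∈ I, a i * ∏ v, ((1 / 2 : ℝ) ^ (i v)) ^ 2 =
      ∏ v : V, ((n v : ℝ) + 1) * ∑ k ∈ Finset.range (scl (n v) + 1), ((2 : ℝ) ^ (k + 1) * ((1 / 2) ^ k) ^ 2) := by
    simp_rw [Finset.mul_sum]
    rw [Finset.prod_univ_sum]
    refine Finset.sum_congr rfl fun i _ => ?_
    rw [ha]
    simp only
    rw [← Finset.prod_mul_distrib]
    refine Finset.prod_congr rfl fun v _ => ?_
    ring
  calc ∑ γ ∈ S, |TH n (sS σ hσ γ)| ≤ ∑ γ ∈ S, ∑ i ∈ I, if P γ i then a i else 0 := Finset.sum_le_sum fun γ _ => h1 γ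
    _ = ∑ i ∈ I, a i * ((S.filter fun γ => P γ i).card : ℝ) := by
        rw [Finset.sum_comm]
        refine Finset.sum_congr rfl fun i _ => ?_
        rw [← Finset.sum_filter, Finset.sum_const, nsmul_eq_mul, mul_comm]
    _ ≤ ∑ i ∈ I, a i * (K * (1 + c * ∏ v, ((1 / 2 : ℝ) ^ (i v)) ^ 2)) := by
        refine Finset.sum_le_sum fun i hi => mul_le_mul_of_nonneg_left ?_ (ha0 i)
        refine (h2 i hi).trans (le_of_eq ?_)
        rw [hc]
        ring
    _ = K * (∑ i ∈ I, a i + c * ∑ i ∈ I, a i * ∏ v, ((1 / 2 : ℝ) ^ (i v)) ^ 2) := by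
        rw [Finset.mul_sum, ← Finset.sum_add_distrib, Finset.mul_sum]
        refine Finset.sum_congr rfl fun i _ => ?_
        ring
    _ ≤ K * (∏ v : V, (((n v : ℝ) + 1) * (8 * ((n v : ℝ) + 1))) + c * ∏ v : V, (((n v : ℝ) + 1) * 4)) := by
        rw [e1, e2]
        refine mul_le_mul_of_nonneg_left (add_le_add ?_ (mul_le_mul_of_nonneg_left ?_ hc0)) hK0
        · refine Finset.prod_le_prod (fun v _ => by positivity) fun v _ => mul_le_mul_of_nonneg_left ?_ (by positivity)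
          have h3 := geom1 (scl (n v))
          have h4 := scl_le (n v)
          linarith
        · refine Finset.prod_le_prod (fun v _ => by positivity) fun v _ => mul_le_mul_of_nonneg_left ?_ (by positivity)
          exact geom2 _
    _ = KK W V m U Q n := by
        rw [KK, hK, hc]
        simp only [Finset.prod_mul_distrib, Finset.prod_const, Finset.card_univ]
        ring

end kern

end Pool.Agent.H496.R4
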