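import Pool.Agent.H496.A1.Polar

/-! The characters of the group of unit quaternions. -/

set_option autoImplicit false

namespace Pool.Agent.H496.R4

open MeasureTheory Set Function
open scoped ENNReal NNReal ComplexConjugate Pointwise
open Pool.Agent.H496

/-! ### complex coordinates -/

/-- first complex coordinate -/
noncomputable def al (x : Quaternion ℝ) : ℂ := ⟨x.re, x.imI⟩
/-- second complex coordinate -/
noncomputable def be (x : Quaternion ℝ) : ℂ := ⟨x.imJ, x.imK⟩

theorem al_mul (x y : Quaternion ℝ) : al (x * y) = al x * al y - be x * conj (be y) := by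
  apply Complex.ext
  · simp only [al, be, Quaternion.re_mul, Complex.sub_re, Complex.mul_re, Complex.conj_re, Complex.conj_im]
    ring
  · simp only [al, be, Quaternion.imI_mul, Complex.sub_im, Complex.mul_im, Complex.conj_re, Complex.conj_im]
    ring

theorem be_mul (x y : Quaternion ℝ) : be (x * y) = al x * be y + be x * conj (al y) := by
  apply Complex.ext
  · simp only [al, be, Quaternion.imJ_mul, Complex.add_re, Complex.mul_re, Complex.conj_re, Complex.conj_im]
    ring
  · simp only [al, be, Quaternion.imK_mul, Complex.add_im, Complex.mul_im, Complex.conj_re, Complex.conj_im]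
    ring

theorem al_be_norm (x : Quaternion ℝ) : ‖al x‖ ^ 2 + ‖be x‖ ^ 2 = ‖x‖ ^ 2 := by
  rw [← Complex.normSq_eq_norm_sq, ← Complex.normSq_eq_norm_sq, Complex.normSq_apply, Complex.normSq_apply,
    sq ‖x‖, ← Quaternion.normSq_eq_norm_mul_self, Quaternion.normSq_def']
  simp only [al, be]
  ring

theorem continuous_al : Continuous al := by
  have : al = fun x => ((x.re : ℝ) : ℂ) + ((x.imI : ℝ) : ℂ) * Complex.I := by
    funext x
    apply Complex.ext <;> simp [al]
  rw [this]
  have h1 := Quaternion.continuous_re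
  have h2 := Quaternion.continuous_imI
  fun_prop

theorem continuous_be : Continuous be := by
  have : be = fun x => ((x.imJ : ℝ) : ℂ) + ((x.imK : ℝ) : ℂ) * Complex.I := by
    funext x
    apply Complex.ext <;> simp [be]
  rw [this]
  have h1 := Quaternion.continuous_imJ
  have h2 := Quaternion.continuous_imK
  fun_prop

theorem S3_norm (x : S3) : ‖(x : Quaternion ℝ)‖ = 1 := mem_sphere_zero_iff_norm.1 x.2

theorem coe_inv_S3 (x : S3) : ((x⁻¹ : S3) : Quaternion ℝ) = star (x : Quaternion ℝ) := by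
  rw [Metric.unitSphere.coe_inv]
  apply inv_eq_of_mul_eq_one_left
  rw [Quaternion.star_mul_self, Quaternion.normSq_eq_norm_mul_self, S3_norm]
  simp

theorem al_star (x : Quaternion ℝ) : al (star x) = conj (al x) := by
  apply Complex.ext <;> simp [al]

theorem be_star (x : Quaternion ℝ) : be (star x) = -be x := by
  apply Complex.ext <;> simp [be]

theorem re_mul_comm (x y : Quaternion ℝ) : (x * y).re = (y * x).re := by
  simp only [Quaternion.re_mul]
  ring

/-- the real part is a class function -/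
theorem re_conj (g x : S3) : ((g * x * g⁻¹ : S3) : Quaternion ℝ).re = (x : Quaternion ℝ).re := by
  have : (((g * x * g⁻¹ : S3)) : Quaternion ℝ) = (g : Quaternion ℝ) * x * ((g⁻¹ : S3) : Quaternion ℝ) := rfl
  rw [this, re_mul_comm, ← mul_assoc]
  have h : ((g⁻¹ : S3) : Quaternion ℝ) * (g : Quaternion ℝ) = 1 := by
    have h2 : (((g⁻¹ * g : S3)) : Quaternion ℝ) = 1 := by
      rw [inv_mul_cancel]
      rfl
    exact h2
  rw [h, one_mul]

theorem re_inv (x : S3) : ((x⁻¹ : S3) : Quaternion ℝ).re = (x : Quaternion ℝ).re := by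
  rw [coe_inv_S3, Quaternion.re_star]

/-! ### the invariant measure -/

theorem preimage_sector (T : Quaternion ℝ ≃ₗᵢ[ℝ] Quaternion ℝ) (t : S3 → S3)
    (h : ∀ x : S3, ((t x : S3) : Quaternion ℝ) = T x) (hs : Surjective t) (s : Set S3) :
    (Ioo (0 : ℝ) 1 • ((↑) '' (t ⁻¹' s) : Set (Quaternion ℝ))) = T ⁻¹' (Ioo (0 : ℝ) 1 • ((↑) '' s : Set (Quaternion ℝ))) := by
  ext y
  constructor
  · rintro ⟨r, hr, _, ⟨x, hx, rfl⟩, rfl⟩
    refine ⟨r, hr, _, ⟨t x, hx, rfl⟩, ?_⟩
    show r • ((t x : S3) : Quaternion ℝ) = T (r • (x : Quaternion ℝ))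
    rw [h, map_smul]
  · rintro ⟨r, hr, _, ⟨x, hx, rfl⟩, hy⟩
    obtain ⟨x', rfl⟩ := hs x
    refine ⟨r, hr, _, ⟨x', hx, rfl⟩, ?_⟩
    apply T.injective
    show T (r • (x' : Quaternion ℝ)) = T y
    rw [map_smul, ← h]
    exact hy

theorem mp_sph (T : Quaternion ℝ ≃ₗᵢ[ℝ] Quaternion ℝ) (t : S3 → S3)
    (h : ∀ x : S3, ((t x : S3) : Quaternion ℝ) = T x) (hs : Surjective t) (hc : Measurable t) :
    MeasurePreserving t sph sph := by
  refine ⟨hc, ?_⟩
  ext s hms
  rw [Measure.map_apply hc hms, sph, Measure.toSphere_apply' _ (hc hms), Measure.toSphere_apply' _ hms,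
    preimage_sector T t h hs]
  congr 1
  exact T.measurePreserving.measure_preimage_equiv (f := T.toMeasurableEquiv) _

theorem mp_left (g : S3) : MeasurePreserving (fun x : S3 => g * x) sph sph :=
  mp_sph (mulLeftIso g (S3_norm g)) _ (fun _ => rfl) (mul_left_surjective g)
    (continuous_const.mul continuous_id).measurable

theorem mp_right (g : S3) : MeasurePreserving (fun x : S3 => x * g) sph sph :=
  mp_sph (mulRightIso g (S3_norm g)) _ (fun _ => rfl) (mul_right_surjective g)
    (continuous_id.mul continuous_const).measurable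

theorem mp_inv : MeasurePreserving (fun x : S3 => x⁻¹) sph sph := by
  let T : Quaternion ℝ ≃ₗᵢ[ℝ] Quaternion ℝ :=
    { toFun := fun x => star x
      invFun := fun x => star x
      map_add' := fun x y => star_add x y
      map_smul' := fun c x => by simp
      left_inv := fun x => star_star x
      right_inv := fun x => star_star x
      norm_map' := fun x => norm_star x }
  exact mp_sph T _ (fun x => coe_inv_S3 x) inv_surjective continuous_inv.measurable

theorem sph_univ_ne_zero : sph univ ≠ 0 := by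
  rw [Ne, Measure.measure_univ_eq_zero, sph]
  exact Measure.toSphere_ne_zero _

/-- the normalised invariant measure -/
noncomputable def sg : Measure S3 := (sph univ)⁻¹ • sph

instance : IsProbabilityMeasure sg :=
  ⟨by
    rw [sg, Measure.smul_apply, smul_eq_mul]
    exact ENNReal.inv_mul_cancel sph_univ_ne_zero (measure_ne_top _ _)⟩

theorem sg_left (g : S3) : MeasurePreserving (fun x : S3 => g * x) sg sg := (mp_left g).smul_measure _
theorem sg_right (g : S3) : MeasurePreserving (fun x : S3 => x * g) sg sg := (mp_right g).smul_measure _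
theorem sg_inv : MeasurePreserving (fun x : S3 => x⁻¹) sg sg := mp_inv.smul_measure _

theorem int_left (g : S3) (F : S3 → ℂ) : ∫ x, F (g * x) ∂sg = ∫ x, F x ∂sg :=
  (sg_left g).integral_comp (MeasurableEquiv.mulLeft g).measurableEmbedding F
theorem int_right (g : S3) (F : S3 → ℂ) : ∫ x, F (x * g) ∂sg = ∫ x, F x ∂sg :=
  (sg_right g).integral_comp (MeasurableEquiv.mulRight g).measurableEmbedding F
theorem int_conj (g : S3) (F : S3 → ℂ) : ∫ x, F (g * x * g⁻¹) ∂sg = ∫ x, F x ∂sg := by
  rw [int_left g (fun x => F (x * g⁻¹)), int_right]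

theorem integrable_of_cont {F : S3 → ℂ} (h : Continuous F) : Integrable F sg := by
  have := h.integrable_of_hasCompactSupport (μ := sg) (HasCompactSupport.of_compactSpace F)
  exact this

theorem int_zero {F : S3 → ℂ} {t : S3 → S3} (ht : ∫ x, F (t x) ∂sg = ∫ x, F x ∂sg) {ω : ℂ} (hω : ω ≠ 1)
    (h : ∀ x, F (t x) = ω * F x) : ∫ x, F x ∂sg = 0 := by
  simp_rw [h] at ht
  rw [integral_const_mul] at ht
  have : (ω - 1) * ∫ x, F x ∂sg = 0 := by linear_combination ht
  exact (mul_eq_zero.1 this).resolve_left (sub_ne_zero.2 hω)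

/-! ### moments -/

theorem norm_mk {a b c d : ℝ} (h : a ^ 2 + b ^ 2 + c ^ 2 + d ^ 2 = 1) {x : Quaternion ℝ} (hx : x = ⟨a, b, c, d⟩) :
    x ∈ Metric.sphere (0 : Quaternion ℝ) 1 := by
  rw [mem_sphere_zero_iff_norm]
  have h1 : ‖x‖ ^ 2 = 1 := by
    rw [sq, ← Quaternion.normSq_eq_norm_mul_self, Quaternion.normSq_def', hx]
    exact h
  have h0 := norm_nonneg x
  nlinarith

/-- the torus -/
noncomputable def tor (φ : ℝ) : S3 := ⟨⟨Real.cos φ, Real.sin φ, 0, 0⟩,
  norm_mk (by have := Real.sin_sq_add_cos_sq φ; linarith) rfl⟩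

theorem al_tor (φ : ℝ) : al (tor φ : Quaternion ℝ) = Complex.exp (φ * Complex.I) := by
  rw [Complex.exp_mul_I]
  apply Complex.ext <;> simp [al, tor, Complex.cos_ofReal_re, Complex.sin_ofReal_re]

theorem be_tor (φ : ℝ) : be (tor φ : Quaternion ℝ) = 0 := by
  apply Complex.ext <;> simp [be, tor]

theorem conj_exp (φ : ℝ) : conj (Complex.exp (φ * Complex.I)) = Complex.exp (-(φ * Complex.I)) := by
  rw [← Complex.exp_conj]
  simp

/-- the moments -/
noncomputable def mom (a a' b b' : ℕ) : ℂ :=
  ∫ x : S3, al x ^ a * conj (al x) ^ a' * (be x ^ b * conj (be x) ^ b') ∂sg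

theorem cont_al : Continuous fun x : S3 => al (x : Quaternion ℝ) := continuous_al.comp continuous_subtype_val
theorem cont_be : Continuous fun x : S3 => be (x : Quaternion ℝ) := continuous_be.comp continuous_subtype_val
theorem cont_cal : Continuous fun x : S3 => conj (al (x : Quaternion ℝ)) := Complex.continuous_conj.comp cont_al
theorem cont_cbe : Continuous fun x : S3 => conj (be (x : Quaternion ℝ)) := Complex.continuous_conj.comp cont_be

theorem exp_ne_one {m : ℤ} (hm : m ≠ 0) : ∃ φ : ℝ, Complex.exp (m * (φ * Complex.I)) ≠ 1 := by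
  refine ⟨Real.pi / m, ?_⟩
  have hm' : (m : ℂ) ≠ 0 := by exact_mod_cast hm
  have : (m : ℂ) * (((Real.pi / m : ℝ) : ℂ) * Complex.I) = Real.pi * Complex.I := by
    push_cast
    field_simp
  rw [this, Complex.exp_pi_mul_I]
  norm_num

theorem mom_zero {a a' b b' : ℕ} (h : ¬ (a = a' ∧ b = b')) : mom a a' b b' = 0 := by
  by_cases h1 : (a : ℤ) - a' + b - b' = 0
  · -- use the right torus
    have h2 : (a : ℤ) - a' - b + b' ≠ 0 := by omega
    obtain ⟨φ, hφ⟩ := exp_ne_one h2
    refine int_zero (t := fun x => x * tor φ) (int_right (tor φ) fun x : S3 =>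
      al (x : Quaternion ℝ) ^ a * conj (al (x : Quaternion ℝ)) ^ a' *
        (be (x : Quaternion ℝ) ^ b * conj (be (x : Quaternion ℝ)) ^ b')) hφ fun x => ?_
    have e1 : al ((x * tor φ : S3) : Quaternion ℝ) = al x * Complex.exp (φ * Complex.I) := by
      rw [show ((x * tor φ : S3) : Quaternion ℝ) = (x : Quaternion ℝ) * (tor φ : Quaternion ℝ) from rfl,
        al_mul, al_tor, be_tor]
      simp
    have e2 : be ((x * tor φ : S3) : Quaternion ℝ) = be x * Complex.exp (-(φ * Complex.I)) := by
      rw [show ((x * tor φ : S3) : Quaternion ℝ) = (x : Quaternion ℝ) * (tor φ : Quaternion ℝ) from rfl,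
        be_mul, al_tor, be_tor, conj_exp]
      simp
    have e3 : conj (Complex.exp (-(φ * Complex.I))) = Complex.exp (φ * Complex.I) := by
      rw [← conj_exp, Complex.conj_conj]
    rw [e1, e2]
    simp only [map_mul, conj_exp, e3, mul_pow, ← Complex.exp_nat_mul]
    have e4 : Complex.exp (((a : ℤ) - a' - b + b' : ℤ) * (φ * Complex.I)) =
        Complex.exp (a * (φ * Complex.I)) * Complex.exp (a' * (-(φ * Complex.I))) *
        (Complex.exp (b * (-(φ * Complex.I))) * Complex.exp (b' * (φ * Complex.I))) := by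
      rw [← Complex.exp_add, ← Complex.exp_add, ← Complex.exp_add]
      congr 1
      push_cast
      ring
    rw [e4]
    ring
  · obtain ⟨φ, hφ⟩ := exp_ne_one h1
    refine int_zero (t := fun x => tor φ * x) (int_left (tor φ) fun x : S3 =>
      al (x : Quaternion ℝ) ^ a * conj (al (x : Quaternion ℝ)) ^ a' *
        (be (x : Quaternion ℝ) ^ b * conj (be (x : Quaternion ℝ)) ^ b')) hφ fun x => ?_
    have e1 : al ((tor φ * x : S3) : Quaternion ℝ) = Complex.exp (φ * Complex.I) * al x := by
      rw [show ((tor φ * x : S3) : Quaternion ℝ) = (tor φ : Quaternion ℝ) * (x : Quaternion ℝ) from rfl,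
        al_mul, al_tor, be_tor]
      simp
    have e2 : be ((tor φ * x : S3) : Quaternion ℝ) = Complex.exp (φ * Complex.I) * be x := by
      rw [show ((tor φ * x : S3) : Quaternion ℝ) = (tor φ : Quaternion ℝ) * (x : Quaternion ℝ) from rfl,
        be_mul, al_tor, be_tor]
      simp
    rw [e1, e2]
    simp only [map_mul, conj_exp, mul_pow, ← Complex.exp_nat_mul]
    have e4 : Complex.exp (((a : ℤ) - a' + b - b' : ℤ) * (φ * Complex.I)) =
        Complex.exp (a * (φ * Complex.I)) * Complex.exp (a' * (-(φ * Complex.I))) *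
        (Complex.exp (b * (φ * Complex.I)) * Complex.exp (b' * (-(φ * Complex.I)))) := by
      rw [← Complex.exp_add, ← Complex.exp_add, ← Complex.exp_add]
      congr 1
      push_cast
      ring
    rw [e4]
    ring

/-- the real rotation -/
noncomputable def rt (p q : ℝ) (h : p ^ 2 + q ^ 2 = 1) : S3 := ⟨⟨p, 0, q, 0⟩, norm_mk (by linarith) rfl⟩

theorem al_rt (p q : ℝ) (h : p ^ 2 + q ^ 2 = 1) (x : S3) :
    al ((x * rt p q h : S3) : Quaternion ℝ) = p * al x - q * be x := by
  rw [show ((x * rt p q h : S3) : Quaternion ℝ) = (x : Quaternion ℝ) * (rt p q h : Quaternion ℝ) from rfl, al_mul]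
  apply Complex.ext
  · simp [al, be, rt, Complex.mul_re]
    ring
  · simp [al, be, rt, Complex.mul_im]
    ring

theorem cont_monom (a a' b b' : ℕ) :
    Continuous fun x : S3 => al (x : Quaternion ℝ) ^ a * conj (al (x : Quaternion ℝ)) ^ a' *
      (be (x : Quaternion ℝ) ^ b * conj (be (x : Quaternion ℝ)) ^ b') :=
  ((cont_al.pow a).mul (cont_cal.pow a')).mul ((cont_be.pow b).mul (cont_cbe.pow b'))

/-- the moment identity for real rotations -/
theorem mom_rot (n : ℕ) (p q : ℝ) (h : p ^ 2 + q ^ 2 = 1) :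
    mom n n 0 0 = ∑ k ∈ Finset.range (n + 1), (n.choose k : ℂ) ^ 2 * (p ^ 2) ^ k * (q ^ 2) ^ (n - k) *
      mom k k (n - k) (n - k) := by
  have h1 := int_right (rt p q h) (fun x : S3 => al (x : Quaternion ℝ) ^ n * conj (al (x : Quaternion ℝ)) ^ n)
  have h2 : mom n n 0 0 = ∫ x : S3, al (x : Quaternion ℝ) ^ n * conj (al (x : Quaternion ℝ)) ^ n ∂sg := by
    simp [mom]
  rw [h2, ← h1]
  have e : ∀ x : S3, al ((x * rt p q h : S3) : Quaternion ℝ) ^ n * conj (al ((x * rt p q h : S3) : Quaternion ℝ)) ^ n =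
      ∑ k ∈ Finset.range (n + 1), ∑ k' ∈ Finset.range (n + 1),
        ((n.choose k : ℂ) * (n.choose k' : ℂ) * (p : ℂ) ^ k * (-q : ℂ) ^ (n - k) * (p : ℂ) ^ k' * (-q : ℂ) ^ (n - k')) *
        (al (x : Quaternion ℝ) ^ k * conj (al (x : Quaternion ℝ)) ^ k' *
          (be (x : Quaternion ℝ) ^ (n - k) * conj (be (x : Quaternion ℝ)) ^ (n - k'))) := by
    intro x
    rw [al_rt, map_sub, map_mul, map_mul, Complex.conj_ofReal, Complex.conj_ofReal, sub_eq_add_neg, add_pow,
      sub_eq_add_neg, add_pow, Finset.sum_mul_sum]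
    refine Finset.sum_congr rfl fun k _ => Finset.sum_congr rfl fun k' _ => ?_
    rw [← neg_mul, ← neg_mul, mul_pow, mul_pow, mul_pow, mul_pow]
    ring
  simp_rw [e]
  rw [integral_finsetSum _ fun k _ => integrable_of_cont (by
    refine continuous_finsetSum _ fun k' _ => ?_
    exact continuous_const.mul (cont_monom _ _ _ _))]
  refine Finset.sum_congr rfl fun k hk => ?_
  have hint : ∀ k' ∈ Finset.range (n + 1), Integrable (fun x : S3 =>
        ((n.choose k : ℂ) * (n.choose k' : ℂ) * (p : ℂ) ^ k * (-q : ℂ) ^ (n - k) * (p : ℂ) ^ k' * (-q : ℂ) ^ (n - k')) *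
        (al (x : Quaternion ℝ) ^ k * conj (al (x : Quaternion ℝ)) ^ k' *
          (be (x : Quaternion ℝ) ^ (n - k) * conj (be (x : Quaternion ℝ)) ^ (n - k')))) sg := fun k' _ =>
    integrable_of_cont (continuous_const.mul (cont_monom _ _ _ _))
  rw [integral_finsetSum _ hint]
  simp_rw [integral_const_mul]
  rw [Finset.sum_eq_single k]
  · rw [mom]
    have : (-q : ℂ) ^ (n - k) * (-q : ℂ) ^ (n - k) = ((q : ℂ) ^ 2) ^ (n - k) := by
      rw [← mul_pow]
      congr 1
      ring
    linear_combination ((n.choose k : ℂ) * (n.choose k : ℂ) * (p : ℂ) ^ k * (p : ℂ) ^ k *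
      (∫ x : S3, al (x : Quaternion ℝ) ^ k * conj (al (x : Quaternion ℝ)) ^ k *
          (be (x : Quaternion ℝ) ^ (n - k) * conj (be (x : Quaternion ℝ)) ^ (n - k)) ∂sg)) * this
  · intro k' hk' hne
    have h0 : mom k k' (n - k) (n - k') = 0 := mom_zero fun h => hne h.1.symm
    rw [mom] at h0
    rw [h0, mul_zero]
  · intro h'
    exact absurd hk h'

end Pool.Agent.H496.R4
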