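import Pool.Agent.H496.R4.Rep

/-! The characters of the group of unit quaternions, second part. -/

set_option autoImplicit false

namespace Pool.Agent.H496.R4

open MeasureTheory Set Function
open scoped ENNReal NNReal ComplexConjugate Pointwise
open Pool.Agent.H496

theorem mom_poly (n : ℕ) (t : ℕ) : ∑ k ∈ Finset.range (n + 1), ((n.choose k : ℂ) ^ 2 * mom k k (n - k) (n - k)) * (t : ℂ) ^ k =
    mom n n 0 0 * ((t : ℂ) + 1) ^ n := by
  have ht : (0 : ℝ) < t + 1 := by positivity
  have htc : ((t : ℂ) + 1) ≠ 0 := by exact_mod_cast ht.ne'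
  have hp : Real.sqrt (t / (t + 1)) ^ 2 + Real.sqrt (1 / (t + 1)) ^ 2 = 1 := by
    rw [Real.sq_sqrt (by positivity), Real.sq_sqrt (by positivity)]
    field_simp
  have h := mom_rot n _ _ hp
  have e1 : ((Real.sqrt (t / (t + 1)) : ℝ) : ℂ) ^ 2 = t / (t + 1) := by
    rw [← Complex.ofReal_pow, Real.sq_sqrt (by positivity)]
    push_cast
    rfl
  have e2 : ((Real.sqrt (1 / (t + 1)) : ℝ) : ℂ) ^ 2 = 1 / (t + 1) := by
    rw [← Complex.ofReal_pow, Real.sq_sqrt (by positivity)]
    push_cast
    rfl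
  rw [e1, e2] at h
  rw [h, Finset.sum_mul]
  refine Finset.sum_congr rfl fun k hk => ?_
  have hk' : k ≤ n := Nat.lt_succ_iff.1 (Finset.mem_range.1 hk)
  have e3 : ((t : ℂ) + 1) ^ n = ((t : ℂ) + 1) ^ k * ((t : ℂ) + 1) ^ (n - k) := by
    rw [← pow_add, Nat.add_sub_cancel' hk']
  rw [e3, div_pow, div_pow, one_pow]
  field_simp

theorem mom_eq {n k : ℕ} (hk : k ≤ n) : (n.choose k : ℂ) * mom k k (n - k) (n - k) = mom n n 0 0 := by
  set P : Polynomial ℂ := ∑ k ∈ Finset.range (n + 1), Polynomial.C ((n.choose k : ℂ) ^ 2 * mom k k (n - k) (n - k) -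
    (n.choose k : ℂ) * mom n n 0 0) * Polynomial.X ^ k with hP
  have hroot : ∀ t : ℕ, P.IsRoot (t : ℂ) := by
    intro t
    rw [Polynomial.IsRoot, hP, Polynomial.eval_finset_sum]
    simp only [Polynomial.eval_mul, Polynomial.eval_C, Polynomial.eval_pow, Polynomial.eval_X, sub_mul,
      Finset.sum_sub_distrib]
    rw [mom_poly, add_pow, Finset.mul_sum, ← Finset.sum_sub_distrib]
    refine Finset.sum_eq_zero fun k _ => ?_
    rw [one_pow]
    ring
  have hP0 : P = 0 := by
    refine Polynomial.eq_zero_of_infinite_isRoot P ?_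
    refine Set.Infinite.mono (s := range ((↑) : ℕ → ℂ)) ?_ (Set.infinite_range_of_injective Nat.cast_injective)
    rintro _ ⟨t, rfl⟩
    exact hroot t
  have hc := congrArg (fun p => Polynomial.coeff p k) hP0
  simp only [hP, Polynomial.finsetSum_coeff, Polynomial.coeff_C_mul_X_pow, Polynomial.coeff_zero] at hc
  rw [Finset.sum_ite_eq, if_pos (Finset.mem_range.2 (Nat.lt_succ_of_le hk))] at hc
  have hn : (n.choose k : ℂ) ≠ 0 := by exact_mod_cast (Nat.choose_pos hk).ne'
  have h2 : (n.choose k : ℂ) * ((n.choose k : ℂ) * mom k k (n - k) (n - k) - mom n n 0 0) = 0 := by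
    linear_combination hc
  exact sub_eq_zero.1 ((mul_eq_zero.1 h2).resolve_left hn)

theorem mom_val (n : ℕ) : mom n n 0 0 = 1 / (n + 1) := by
  have h1 : ∑ k ∈ Finset.range (n + 1), (n.choose k : ℂ) * mom k k (n - k) (n - k) = 1 := by
    have h2 : ∫ _x : S3, (1 : ℂ) ∂sg = 1 := by simp
    rw [← h2]
    have e : ∀ x : S3, (1 : ℂ) = ∑ k ∈ Finset.range (n + 1), (n.choose k : ℂ) *
        (al (x : Quaternion ℝ) ^ k * conj (al (x : Quaternion ℝ)) ^ k *
          (be (x : Quaternion ℝ) ^ (n - k) * conj (be (x : Quaternion ℝ)) ^ (n - k))) := by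
      intro x
      have h3 : al (x : Quaternion ℝ) * conj (al (x : Quaternion ℝ)) +
          be (x : Quaternion ℝ) * conj (be (x : Quaternion ℝ)) = 1 := by
        rw [Complex.mul_conj, Complex.mul_conj, Complex.normSq_eq_norm_sq, Complex.normSq_eq_norm_sq]
        have := al_be_norm (x : Quaternion ℝ)
        rw [S3_norm, one_pow] at this
        exact_mod_cast this
      calc (1 : ℂ) = (al (x : Quaternion ℝ) * conj (al (x : Quaternion ℝ)) +
          be (x : Quaternion ℝ) * conj (be (x : Quaternion ℝ))) ^ n := by rw [h3, one_pow]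
        _ = _ := by
          rw [add_pow]
          refine Finset.sum_congr rfl fun k _ => ?_
          rw [mul_pow, mul_pow]
          ring
    have h4 : ∫ x : S3, (1 : ℂ) ∂sg = ∫ x : S3, ∑ k ∈ Finset.range (n + 1), (n.choose k : ℂ) *
        (al (x : Quaternion ℝ) ^ k * conj (al (x : Quaternion ℝ)) ^ k *
          (be (x : Quaternion ℝ) ^ (n - k) * conj (be (x : Quaternion ℝ)) ^ (n - k))) ∂sg :=
      integral_congr_ae (Filter.Eventually.of_forall e)
    have hint : ∀ k ∈ Finset.range (n + 1), Integrable (fun x : S3 => (n.choose k : ℂ) *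
        (al (x : Quaternion ℝ) ^ k * conj (al (x : Quaternion ℝ)) ^ k *
          (be (x : Quaternion ℝ) ^ (n - k) * conj (be (x : Quaternion ℝ)) ^ (n - k)))) sg := fun k _ =>
      integrable_of_cont (continuous_const.mul (cont_monom _ _ _ _))
    rw [h4, integral_finsetSum _ hint]
    refine Finset.sum_congr rfl fun k _ => ?_
    rw [integral_const_mul]
    rfl
  have h2 : ∀ k ∈ Finset.range (n + 1), (n.choose k : ℂ) * mom k k (n - k) (n - k) = mom n n 0 0 := fun k hk =>
    mom_eq (Nat.lt_succ_iff.1 (Finset.mem_range.1 hk))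
  rw [Finset.sum_congr rfl h2, Finset.sum_const, Finset.card_range, nsmul_eq_mul] at h1
  have h3 : ((n : ℂ) + 1) ≠ 0 := by exact_mod_cast Nat.succ_ne_zero n
  field_simp
  push_cast at h1
  linear_combination h1

/-! ### the characters -/

/-- the Chebyshev polynomials of the second kind -/
noncomputable def ch : ℕ → ℝ → ℝ
  | 0, _ => 1
  | 1, t => 2 * t
  | (n + 2), t => 2 * t * ch (n + 1) t - ch n t

theorem continuous_ch : ∀ n, Continuous (ch n)
  | 0 => by
    have : ch 0 = fun _ => 1 := by funext t; simp [ch]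
    rw [this]
    exact continuous_const
  | 1 => by
    have : ch 1 = fun t => 2 * t := by funext t; simp [ch]
    rw [this]
    fun_prop
  | (n + 2) => by
    have : ch (n + 2) = fun t => 2 * t * ch (n + 1) t - ch n t := by funext t; simp [ch]
    rw [this]
    have h1 := continuous_ch (n + 1)
    have h2 := continuous_ch n
    fun_prop

theorem ch_eq : ∀ (n : ℕ) (t : ℝ), ch n t = (Polynomial.Chebyshev.U ℝ n).eval t
  | 0, t => by simp [ch]
  | 1, t => by simp [ch]
  | (n + 2), t => by
    rw [ch, ch_eq (n + 1), ch_eq n]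
    have := Polynomial.Chebyshev.U_add_two ℝ n
    push_cast
    rw [this]
    simp

theorem ch_sin (n : ℕ) (θ : ℝ) : ch n (Real.cos θ) * Real.sin θ = Real.sin ((n + 1) * θ) := by
  rw [ch_eq]
  have := Polynomial.Chebyshev.U_real_cos θ n
  simpa using this

/-- `Σ z^k w^(n-k)` for `z w = 1` -/
theorem geom_ch (z w : ℂ) (t : ℝ) (h1 : z * w = 1) (h2 : z + w = 2 * t) :
    ∀ n : ℕ, ∑ k ∈ Finset.range (n + 1), z ^ k * w ^ (n - k) = ch n t
  | 0 => by simp [ch]
  | 1 => by
    rw [Finset.sum_range_succ, Finset.sum_range_one]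
    simp only [ch]
    push_cast
    simp only [pow_zero, Nat.sub_zero, pow_one, one_mul, Nat.sub_self, mul_one]
    linear_combination h2
  | (n + 2) => by
    have i1 := geom_ch z w t h1 h2 (n + 1)
    have i2 := geom_ch z w t h1 h2 n
    have r1 : ∀ m : ℕ, ∑ k ∈ Finset.range (m + 2), z ^ k * w ^ (m + 1 - k) =
        w * (∑ k ∈ Finset.range (m + 1), z ^ k * w ^ (m - k)) + z ^ (m + 1) := by
      intro m
      rw [Finset.sum_range_succ, Finset.mul_sum]
      simp only [Nat.sub_self, pow_zero, mul_one]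
      congr 1
      refine Finset.sum_congr rfl fun k hk => ?_
      have : m + 1 - k = (m - k) + 1 := by
        have := Finset.mem_range.1 hk
        omega
      rw [this, pow_succ]
      ring
    have r3 := r1 (n + 1)
    have r4 := r1 n
    rw [i1] at r3 r4
    rw [i2] at r4
    rw [show n + 2 + 1 = n + 1 + 2 from rfl, show n + 2 = n + 1 + 1 from rfl, r3]
    simp only [ch]
    push_cast
    have r5 : z ^ (n + 1 + 1) = z * z ^ (n + 1) := by rw [pow_succ]; ring
    rw [r5]
    have r6 : z ^ (n + 1) = ch (n + 1) t - w * ch n t := by linear_combination -r4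
    rw [r6]
    linear_combination (ch (n + 1) t : ℂ) * h2 - (ch n t : ℂ) * h1

end Pool.Agent.H496.R4
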