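import Pool.Agent.H496.R4.Rep2

/-! The characters of the group of unit quaternions, third part: reproducing property. -/

set_option autoImplicit false

namespace Pool.Agent.H496.R4

open MeasureTheory Set Function
open scoped ENNReal NNReal ComplexConjugate Pointwise
open Pool.Agent.H496

theorem ch_le (n : ℕ) {t : ℝ} (h1 : -1 ≤ t) (h2 : t ≤ 1) : |ch n t| ≤ n + 1 := by
  set θ := Real.arccos t with hθ
  have ht : Real.cos θ = t := Real.cos_arccos h1 h2
  have hz : Complex.exp (θ * Complex.I) * Complex.exp (-(θ * Complex.I)) = 1 := by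
    rw [← Complex.exp_add, add_neg_cancel, Complex.exp_zero]
  have hw : Complex.exp (θ * Complex.I) + Complex.exp (-(θ * Complex.I)) = 2 * t := by
    rw [← ht, Complex.ofReal_cos, Complex.two_cos]
    simp only [neg_mul]
  have h := geom_ch _ _ t hz hw n
  have h3 : ‖((ch n t : ℝ) : ℂ)‖ ≤ n + 1 := by
    rw [← h]
    refine (norm_sum_le _ _).trans ?_
    have e : ∀ k ∈ Finset.range (n + 1),
        ‖Complex.exp (θ * Complex.I) ^ k * Complex.exp (-(θ * Complex.I)) ^ (n - k)‖ = 1 := by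
      intro k _
      rw [norm_mul, norm_pow, norm_pow, Complex.norm_exp_ofReal_mul_I, ← neg_mul, ← Complex.ofReal_neg,
        Complex.norm_exp_ofReal_mul_I]
      simp
    rw [Finset.sum_congr rfl e]
    simp
  rwa [Complex.norm_real, Real.norm_eq_abs] at h3

theorem ch_mul_le (n : ℕ) {t : ℝ} (h1 : -1 ≤ t) (h2 : t ≤ 1) : |ch n t| * Real.sqrt (1 - t ^ 2) ≤ 1 := by
  set θ := Real.arccos t with hθ
  have ht : Real.cos θ = t := Real.cos_arccos h1 h2
  have hs : Real.sin θ = Real.sqrt (1 - t ^ 2) := Real.sin_arccos t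
  have h := ch_sin n θ
  rw [ht, hs] at h
  have h3 : |ch n t * Real.sqrt (1 - t ^ 2)| ≤ 1 := by
    rw [h]
    exact Real.abs_sin_le_one _
  rwa [abs_mul, abs_of_nonneg (Real.sqrt_nonneg _)] at h3

theorem re_mem (x : S3) : -1 ≤ (x : Quaternion ℝ).re ∧ (x : Quaternion ℝ).re ≤ 1 := by
  have h := al_be_norm (x : Quaternion ℝ)
  rw [S3_norm, one_pow] at h
  have h1 : (x : Quaternion ℝ).re ^ 2 ≤ ‖al (x : Quaternion ℝ)‖ ^ 2 := by
    rw [← Complex.normSq_eq_norm_sq, Complex.normSq_apply]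
    simp only [al]
    nlinarith [sq_nonneg (x : Quaternion ℝ).imI]
  have h2 := sq_nonneg ‖be (x : Quaternion ℝ)‖
  constructor <;> nlinarith

theorem two_re (x : Quaternion ℝ) : ((2 * x.re : ℝ) : ℂ) = al x + conj (al x) := by
  rw [Complex.add_conj]
  rfl

theorem cont_re : Continuous fun x : S3 => (x : Quaternion ℝ).re :=
  Quaternion.continuous_re.comp continuous_subtype_val

theorem cont_ch (n : ℕ) : Continuous fun x : S3 => ((ch n (x : Quaternion ℝ).re : ℝ) : ℂ) :=
  Complex.continuous_ofReal.comp ((continuous_ch n).comp cont_re)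

theorem int_ch : ∀ (m n p : ℕ), m + p ≤ n →
    ∫ x : S3, al x ^ n * conj (al x) ^ p * ((ch m (x : Quaternion ℝ).re : ℝ) : ℂ) ∂sg =
      if m + p = n then mom n n 0 0 else 0
  | 0, n, p, h => by
    have e : ∫ x : S3, al x ^ n * conj (al x) ^ p * ((ch 0 (x : Quaternion ℝ).re : ℝ) : ℂ) ∂sg = mom n p 0 0 := by
      simp [mom, ch]
    rw [e, zero_add]
    split_ifs with h1
    · rw [h1]
    · exact mom_zero fun h2 => h1 h2.1.symm
  | 1, n, p, h => by
    have e : ∀ x : S3, al x ^ n * conj (al (x : Quaternion ℝ)) ^ p * ((ch 1 (x : Quaternion ℝ).re : ℝ) : ℂ) =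
        al (x : Quaternion ℝ) ^ (n + 1) * conj (al (x : Quaternion ℝ)) ^ p *
          (be (x : Quaternion ℝ) ^ 0 * conj (be (x : Quaternion ℝ)) ^ 0) +
        al (x : Quaternion ℝ) ^ n * conj (al (x : Quaternion ℝ)) ^ (p + 1) *
          (be (x : Quaternion ℝ) ^ 0 * conj (be (x : Quaternion ℝ)) ^ 0) := by
      intro x
      simp only [ch, two_re]
      ring
    simp_rw [e]
    rw [integral_add (integrable_of_cont (cont_monom _ _ _ _)) (integrable_of_cont (cont_monom _ _ _ _))]
    have h1 : mom (n + 1) p 0 0 = 0 := mom_zero (by omega)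
    have h2 : mom n (p + 1) 0 0 = if 1 + p = n then mom n n 0 0 else 0 := by
      split_ifs with h3
      · rw [show p + 1 = n by omega]
      · exact mom_zero (by omega)
    rw [mom] at h1 h2
    rw [h1, h2, zero_add]
  | (m + 2), n, p, h => by
    have i1 := int_ch (m + 1) (n + 1) p (by omega)
    have i2 := int_ch (m + 1) n (p + 1) (by omega)
    have i3 := int_ch m n p (by omega)
    rw [if_neg (by omega)] at i1 i3
    have e : ∀ x : S3, al x ^ n * conj (al (x : Quaternion ℝ)) ^ p * ((ch (m + 2) (x : Quaternion ℝ).re : ℝ) : ℂ) =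
        al (x : Quaternion ℝ) ^ (n + 1) * conj (al (x : Quaternion ℝ)) ^ p * ((ch (m + 1) (x : Quaternion ℝ).re : ℝ) : ℂ) +
        al (x : Quaternion ℝ) ^ n * conj (al (x : Quaternion ℝ)) ^ (p + 1) * ((ch (m + 1) (x : Quaternion ℝ).re : ℝ) : ℂ) -
        al (x : Quaternion ℝ) ^ n * conj (al (x : Quaternion ℝ)) ^ p * ((ch m (x : Quaternion ℝ).re : ℝ) : ℂ) := by
      intro x
      have h2 := two_re (x : Quaternion ℝ)
      simp only [ch]
      rw [Complex.ofReal_sub, Complex.ofReal_mul, h2]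
      ring
    simp_rw [e]
    have hc : ∀ a b c : ℕ, Integrable (fun x : S3 => al (x : Quaternion ℝ) ^ a * conj (al (x : Quaternion ℝ)) ^ b *
        ((ch c (x : Quaternion ℝ).re : ℝ) : ℂ)) sg := fun a b c =>
      integrable_of_cont (((cont_al.pow a).mul (cont_cal.pow b)).mul (cont_ch c))
    have s1 := integral_sub (μ := sg) ((hc (n + 1) p (m + 1)).add (hc n (p + 1) (m + 1))) (hc n p m)
    have s2 := integral_add (μ := sg) (hc (n + 1) p (m + 1)) (hc n (p + 1) (m + 1))
    simp only [Pi.add_apply] at s1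
    rw [s1, s2, i1, i2, i3]
    rw [zero_add, sub_zero]
    congr 1
    apply propext
    omega

/-- the kernel `(n + 1) χ_n` -/
noncomputable def th (n : ℕ) (x : S3) : ℝ := (n + 1) * ch n (x : Quaternion ℝ).re

theorem cont_th (n : ℕ) : Continuous (th n) := continuous_const.mul ((continuous_ch n).comp cont_re)

theorem cont_thc (n : ℕ) : Continuous fun x => ((th n x : ℝ) : ℂ) := Complex.continuous_ofReal.comp (cont_th n)

theorem th_conj (n : ℕ) (g x : S3) : th n (g * x * g⁻¹) = th n x := by rw [th, th, re_conj]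

theorem th_inv (n : ℕ) (x : S3) : th n x⁻¹ = th n x := by rw [th, th, re_inv]

theorem int_al_th (n : ℕ) : ∫ x : S3, al (x : Quaternion ℝ) ^ n * ((th n x : ℝ) : ℂ) ∂sg = 1 := by
  have h := int_ch n n 0 (by omega)
  rw [if_pos (by omega), mom_val] at h
  have e : ∀ x : S3, al (x : Quaternion ℝ) ^ n * ((th n x : ℝ) : ℂ) =
      ((n : ℂ) + 1) * (al x ^ n * conj (al (x : Quaternion ℝ)) ^ 0 * ((ch n (x : Quaternion ℝ).re : ℝ) : ℂ)) := by
    intro x
    rw [th]
    push_cast
    ring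
  simp_rw [e]
  rw [integral_const_mul, h]
  have h3 : ((n : ℂ) + 1) ≠ 0 := by exact_mod_cast Nat.succ_ne_zero n
  field_simp

theorem int_cross_zero (n a k : ℕ) (hk : k ≠ 0) :
    ∫ x : S3, al (x : Quaternion ℝ) ^ a * conj (be (x : Quaternion ℝ)) ^ k * ((th n x : ℝ) : ℂ) ∂sg = 0 := by
  have hk' : (-2 * k : ℤ) ≠ 0 := by omega
  obtain ⟨φ, hφ⟩ := exp_ne_one hk'
  refine int_zero (t := fun x => tor φ * x * (tor φ)⁻¹) (int_conj (tor φ) fun x : S3 =>
    al (x : Quaternion ℝ) ^ a * conj (be (x : Quaternion ℝ)) ^ k * ((th n x : ℝ) : ℂ)) hφ fun x => ?_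
  have hc : (((tor φ * x * (tor φ)⁻¹ : S3)) : Quaternion ℝ) =
      (tor φ : Quaternion ℝ) * (x : Quaternion ℝ) * star (tor φ : Quaternion ℝ) := by
    rw [← coe_inv_S3]
    rfl
  have e0 : Complex.exp (φ * Complex.I) * Complex.exp (-(φ * Complex.I)) = 1 := by
    rw [← Complex.exp_add, add_neg_cancel, Complex.exp_zero]
  have e1 : al ((tor φ * x * (tor φ)⁻¹ : S3) : Quaternion ℝ) = al x := by
    rw [hc, al_mul, al_mul, be_mul, al_star, be_star, al_tor, be_tor, conj_exp]
    simp only [zero_mul, sub_zero, neg_zero, map_zero, mul_zero]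
    linear_combination (al (x : Quaternion ℝ)) * e0
  have e2 : be ((tor φ * x * (tor φ)⁻¹ : S3) : Quaternion ℝ) = Complex.exp (φ * Complex.I) ^ 2 * be x := by
    rw [hc, be_mul, al_mul, be_mul, al_star, be_star, al_tor, be_tor, conj_exp]
    have : conj (Complex.exp (-(φ * Complex.I))) = Complex.exp (φ * Complex.I) := by
      rw [← conj_exp, Complex.conj_conj]
    simp only [zero_mul, neg_zero, mul_zero, zero_add, add_zero, this]
    ring
  rw [th_conj, e1, e2, map_mul, map_pow, conj_exp]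
  have e4 : Complex.exp ((-2 * k : ℤ) * (φ * Complex.I)) = (Complex.exp (-(φ * Complex.I)) ^ 2) ^ k := by
    rw [← pow_mul, ← Complex.exp_nat_mul]
    congr 1
    push_cast
    ring
  rw [e4, mul_pow]
  ring

/-- the reproducing property for null forms of the standard direction -/
theorem repr_std (n : ℕ) (A B : ℂ) (x : S3) :
    ∫ y : S3, (A * al ((x * y : S3) : Quaternion ℝ) + B * conj (be ((x * y : S3) : Quaternion ℝ))) ^ n *
      ((th n y : ℝ) : ℂ) ∂sg = (A * al (x : Quaternion ℝ) + B * conj (be (x : Quaternion ℝ))) ^ n := by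
  set a : ℂ := A * al (x : Quaternion ℝ) + B * conj (be (x : Quaternion ℝ)) with ha
  set b : ℂ := -(A * be (x : Quaternion ℝ)) + B * conj (al (x : Quaternion ℝ)) with hb
  have e : ∀ y : S3, (A * al ((x * y : S3) : Quaternion ℝ) + B * conj (be ((x * y : S3) : Quaternion ℝ))) ^ n *
      ((th n y : ℝ) : ℂ) = ∑ k ∈ Finset.range (n + 1), (a ^ k * b ^ (n - k) * (n.choose k : ℂ)) *
        (al (y : Quaternion ℝ) ^ k * conj (be (y : Quaternion ℝ)) ^ (n - k) * ((th n y : ℝ) : ℂ)) := by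
    intro y
    have h1 : A * al ((x * y : S3) : Quaternion ℝ) + B * conj (be ((x * y : S3) : Quaternion ℝ)) =
        a * al (y : Quaternion ℝ) + b * conj (be (y : Quaternion ℝ)) := by
      rw [show ((x * y : S3) : Quaternion ℝ) = (x : Quaternion ℝ) * (y : Quaternion ℝ) from rfl, al_mul, be_mul,
        map_add, map_mul, map_mul, Complex.conj_conj, ha, hb]
      ring
    rw [h1, add_pow, Finset.sum_mul]
    refine Finset.sum_congr rfl fun k _ => ?_
    rw [mul_pow, mul_pow]
    ring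
  simp_rw [e]
  have hint : ∀ k ∈ Finset.range (n + 1), Integrable (fun y : S3 => (a ^ k * b ^ (n - k) * (n.choose k : ℂ)) *
        (al (y : Quaternion ℝ) ^ k * conj (be (y : Quaternion ℝ)) ^ (n - k) * ((th n y : ℝ) : ℂ))) sg := fun k _ =>
    integrable_of_cont (continuous_const.mul (((cont_al.pow k).mul (cont_cbe.pow _)).mul (cont_thc n)))
  rw [integral_finsetSum _ hint, Finset.sum_eq_single n]
  · rw [integral_const_mul, Nat.sub_self]
    simp only [pow_zero, mul_one, Nat.choose_self, Nat.cast_one]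
    rw [int_al_th, mul_one]
  · intro k hk hne
    rw [integral_const_mul, int_cross_zero n k (n - k), mul_zero]
    have := Finset.mem_range.1 hk
    omega
  · intro h
    exact absurd (Finset.mem_range.2 (Nat.lt_succ_self n)) h

/-! ### conjugation to the torus -/

/-- the quaternion `i` -/
noncomputable def qI : Quaternion ℝ := ⟨0, 1, 0, 0⟩
/-- the quaternion `j` -/
noncomputable def qJ : Quaternion ℝ := ⟨0, 0, 1, 0⟩
/-- the quaternion `k` -/
noncomputable def qK : Quaternion ℝ := ⟨0, 0, 0, 1⟩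

@[simp] theorem q1_re : (1 : Quaternion ℝ).re = 1 := rfl
@[simp] theorem q1_i : (1 : Quaternion ℝ).imI = 0 := rfl
@[simp] theorem q1_j : (1 : Quaternion ℝ).imJ = 0 := rfl
@[simp] theorem q1_k : (1 : Quaternion ℝ).imK = 0 := rfl
@[simp] theorem qI_re : qI.re = 0 := rfl
@[simp] theorem qI_i : qI.imI = 1 := rfl
@[simp] theorem qI_j : qI.imJ = 0 := rfl
@[simp] theorem qI_k : qI.imK = 0 := rfl
@[simp] theorem qJ_re : qJ.re = 0 := rfl
@[simp] theorem qJ_i : qJ.imI = 0 := rfl
@[simp] theorem qJ_j : qJ.imJ = 1 := rfl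
@[simp] theorem qJ_k : qJ.imK = 0 := rfl
@[simp] theorem qK_re : qK.re = 0 := rfl
@[simp] theorem qK_i : qK.imI = 0 := rfl
@[simp] theorem qK_j : qK.imJ = 0 := rfl
@[simp] theorem qK_k : qK.imK = 1 := rfl

theorem qII : qI * qI = -1 := by
  ext <;> simp

theorem qJI : qJ * qI = -qK := by
  ext <;> simp

theorem qIJ : qI * qJ = qK := by
  ext <;> simp

theorem exists_conj (X : Quaternion ℝ) (hX : X * X = -1) :
    ∃ h : S3, X * (h : Quaternion ℝ) = (h : Quaternion ℝ) * qI := by
  have hii := qII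
  set i : Quaternion ℝ := qI with hi
  by_cases h0 : (1 : Quaternion ℝ) - X * i = 0
  · have hXi : X = -i := by
      have h1 : X * i = 1 := (sub_eq_zero.1 h0).symm
      calc X = -(X * (i * i)) := by rw [hii]; simp
        _ = -((X * i) * i) := by rw [mul_assoc]
        _ = -i := by rw [h1, one_mul]
    refine ⟨⟨qJ, norm_mk (a := 0) (b := 0) (c := 1) (d := 0) (by norm_num) rfl⟩, ?_⟩
    show X * qJ = qJ * i
    rw [hXi, hi, neg_mul, qIJ, qJI]
  · set q : Quaternion ℝ := 1 - X * i with hq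
    have hn : ‖q‖ ≠ 0 := norm_ne_zero_iff.2 h0
    have hXq : X * q = q * i := by
      rw [hq, mul_sub, sub_mul, mul_one, one_mul, ← mul_assoc, hX, mul_assoc X i i, hii]
      simp
      abel
    refine ⟨⟨‖q‖⁻¹ • q, ?_⟩, ?_⟩
    · rw [mem_sphere_zero_iff_norm, norm_smul, norm_inv, norm_norm, inv_mul_cancel₀ hn]
    · show X * (‖q‖⁻¹ • q) = (‖q‖⁻¹ • q) * i
      rw [mul_smul_comm, smul_mul_assoc, hXq]

theorem null_std {l : Quaternion ℝ →ₗ[ℝ] ℂ} (hl : ∀ x, l (x * qI) = Complex.I * l x) (x : Quaternion ℝ) :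
    l x = l 1 * al x + l qJ * conj (be x) := by
  have h1 : l qI = Complex.I * l 1 := by
    rw [← hl 1, one_mul]
  have h2 : l qK = -(Complex.I * l qJ) := by
    rw [← hl, ← map_neg, qJI, neg_neg]
  have hx : x = x.re • (1 : Quaternion ℝ) + x.imI • qI + x.imJ • qJ + x.imK • qK := by
    ext <;> simp
  have h3 : l x = x.re • l 1 + x.imI • l qI + x.imJ • l qJ + x.imK • l qK := by
    conv_lhs => rw [hx]
    simp only [map_add, map_smul]
  have h4 : al x = x.re + x.imI * Complex.I := by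
    apply Complex.ext <;> simp [al]
  have h5 : conj (be x) = x.imJ - x.imK * Complex.I := by
    apply Complex.ext <;> simp [be]
  rw [h3, h1, h2, h4, h5]
  simp only [Complex.real_smul]
  ring

/-- the reproducing property for null forms -/
theorem repr_null {l : Quaternion ℝ →ₗ[ℝ] ℂ} (hl : IsNull l) (n : ℕ) (x : S3) :
    ∫ y : S3, l ((x * y : S3) : Quaternion ℝ) ^ n * ((th n y : ℝ) : ℂ) ∂sg = l (x : Quaternion ℝ) ^ n := by
  obtain ⟨X, hX, hlX⟩ := hl
  obtain ⟨h, hh⟩ := exists_conj X hX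
  -- l' x = l (x h⁻¹)
  set R : Quaternion ℝ →ₗ[ℝ] Quaternion ℝ :=
    { toFun := fun x => x * ((h⁻¹ : S3) : Quaternion ℝ)
      map_add' := fun x y => add_mul x y _
      map_smul' := fun c x => by simp } with hR
  set l' : Quaternion ℝ →ₗ[ℝ] ℂ := l.comp R with hl'
  have hinv : (h : Quaternion ℝ) * ((h⁻¹ : S3) : Quaternion ℝ) = 1 := by
    have : ((h * h⁻¹ : S3) : Quaternion ℝ) = 1 := by
      rw [mul_inv_cancel]
      rfl
    exact this
  have hinv' : ((h⁻¹ : S3) : Quaternion ℝ) * (h : Quaternion ℝ) = 1 := by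
    have : ((h⁻¹ * h : S3) : Quaternion ℝ) = 1 := by
      rw [inv_mul_cancel]
      rfl
    exact this
  have hnull : ∀ x, l' (x * qI) = Complex.I * l' x := by
    intro x
    show l ((x * qI) * ((h⁻¹ : S3) : Quaternion ℝ)) = Complex.I * l (x * ((h⁻¹ : S3) : Quaternion ℝ))
    rw [← hlX]
    congr 1
    have h2 : qI * ((h⁻¹ : S3) : Quaternion ℝ) = ((h⁻¹ : S3) : Quaternion ℝ) * X := by
      calc qI * ((h⁻¹ : S3) : Quaternion ℝ) =
          ((h⁻¹ : S3) : Quaternion ℝ) * ((h : Quaternion ℝ) * qI) * ((h⁻¹ : S3) : Quaternion ℝ) := by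
            rw [← mul_assoc, hinv', one_mul]
        _ = ((h⁻¹ : S3) : Quaternion ℝ) * (X * (h : Quaternion ℝ)) * ((h⁻¹ : S3) : Quaternion ℝ) := by rw [hh]
        _ = ((h⁻¹ : S3) : Quaternion ℝ) * X * ((h : Quaternion ℝ) * ((h⁻¹ : S3) : Quaternion ℝ)) := by
            simp only [mul_assoc]
        _ = _ := by rw [hinv, mul_one]
    rw [mul_assoc, h2, ← mul_assoc]
  have hll : ∀ z : S3, l (z : Quaternion ℝ) = l' ((z * h : S3) : Quaternion ℝ) := by
    intro z
    show l (z : Quaternion ℝ) = l (((z : Quaternion ℝ) * (h : Quaternion ℝ)) * ((h⁻¹ : S3) : Quaternion ℝ))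
    rw [mul_assoc, hinv, mul_one]
  have hstd := null_std hnull
  have h5 := int_conj h⁻¹ (fun y : S3 => l' (((x * h) * y : S3) : Quaternion ℝ) ^ n * ((th n y : ℝ) : ℂ))
  have h6 := repr_std n (l' 1) (l' qJ) (x * h)
  simp only [← hstd] at h6
  rw [h6, inv_inv] at h5
  rw [hll x, ← h5]
  refine integral_congr_ae (Filter.Eventually.of_forall fun y => ?_)
  have h7 : x * h * (h⁻¹ * y * h) = x * y * h := by group
  have h8 : th n (h⁻¹ * y * h) = th n y := by
    have := th_conj n h⁻¹ y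
    rwa [inv_inv] at this
  simp only [h7, h8, hll (x * y)]

end Pool.Agent.H496.R4
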