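import Pool.Agent.H496.R4.Kern

/-! Selberg's inequality for the reproducing kernels, and unfolding. -/

set_option autoImplicit false

namespace Pool.Agent.H496.R4

open MeasureTheory Set Function
open scoped ENNReal NNReal ComplexConjugate
open Pool.Agent.H496

section selberg
variable {V : Type*} [Fintype V]

theorem mp_leftV (g : V → S3) : MeasurePreserving (fun x : V → S3 => g * x) (sgV V) (sgV V) :=
  measurePreserving_pi _ _ fun v => sg_left (g v)

theorem int_leftV {E : Type*} [NormedAddCommGroup E] [NormedSpace ℝ E] (g : V → S3) (F : (V → S3) → E) :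
    ∫ x, F (g * x) ∂(sgV V) = ∫ x, F x ∂(sgV V) :=
  (mp_leftV g).integral_comp (MeasurableEquiv.mulLeft g).measurableEmbedding F

theorem TH_inner (n : V → ℕ) (u u' : V → S3) :
    ∫ c, TH n (u * c) * TH n (u' * c) ∂(sgV V) = TH n (u * u'⁻¹) := by
  have h := int_leftV u'⁻¹ (fun c => TH n (u * c) * TH n (u' * c))
  rw [← h, ← TH_idem]
  refine integral_congr_ae (Filter.Eventually.of_forall fun c => ?_)
  simp only
  congr 2
  · rw [mul_assoc]
  · rw [mul_inv_cancel_left]

variable {ι : Type*} (A : Finset ι) (u : ι → V → S3) (n : V → ℕ)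

theorem selberg {g₀ : (V → S3) → ℂ} (hg : Continuous g₀) {S : ℝ} (hS0 : 0 < S)
    (hS : ∀ i ∈ A, ∑ j ∈ A, |TH n (u i * (u j)⁻¹)| ≤ S) :
    ∑ i ∈ A, ‖∫ c, g₀ c * ((TH n (u i * c) : ℝ) : ℂ) ∂(sgV V)‖ ^ 2 ≤ S * ∫ c, ‖g₀ c‖ ^ 2 ∂(sgV V) := by
  classical
  set b : ι → ℂ := fun i => ∫ c, g₀ c * ((TH n (u i * c) : ℝ) : ℂ) ∂(sgV V) with hb
  set P : (V → S3) → ℂ := fun c => ∑ i ∈ A, b i * ((TH n (u i * c) : ℝ) : ℂ) with hP
  have hk : ∀ i, Continuous fun c : V → S3 => TH n (u i * c) := fun i =>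
    (cont_TH n).comp (continuous_const.mul continuous_id)
  have hkc : ∀ i, Continuous fun c : V → S3 => ((TH n (u i * c) : ℝ) : ℂ) := fun i =>
    Complex.continuous_ofReal.comp (hk i)
  have hPc : Continuous P := continuous_finsetSum _ fun i _ => continuous_const.mul (hkc i)
  set X : ℝ := ∫ c, ‖g₀ c‖ ^ 2 ∂(sgV V) with hX
  set Y : ℝ := ∑ i ∈ A, ‖b i‖ ^ 2 with hY
  have hint : ∀ {F : (V → S3) → ℝ}, Continuous F → Integrable F (sgV V) := fun h =>
    h.integrable_of_hasCompactSupport (HasCompactSupport.of_compactSpace _)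
  -- the mixed term
  have h1 : ∫ c, g₀ c * conj (P c) ∂(sgV V) = (Y : ℂ) := by
    have e : ∀ c, g₀ c * conj (P c) = ∑ i ∈ A, conj (b i) * (g₀ c * ((TH n (u i * c) : ℝ) : ℂ)) := by
      intro c
      simp only [hP, map_sum, map_mul, Complex.conj_ofReal, Finset.mul_sum]
      refine Finset.sum_congr rfl fun i _ => ?_
      ring
    have hi : ∀ i ∈ A, Integrable (fun c => conj (b i) * (g₀ c * ((TH n (u i * c) : ℝ) : ℂ))) (sgV V) := fun i _ =>
      integrable_V (continuous_const.mul (hg.mul (hkc i)))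
    simp_rw [e]
    rw [integral_finsetSum _ hi, hY]
    push_cast
    refine Finset.sum_congr rfl fun i _ => ?_
    rw [integral_const_mul]
    show conj (b i) * b i = _
    rw [mul_comm, Complex.mul_conj, Complex.normSq_eq_norm_sq]
    push_cast
    rfl
  -- the quadratic term
  have h2 : ∫ c, P c * conj (P c) ∂(sgV V) = ∑ i ∈ A, ∑ j ∈ A, b i * conj (b j) * ((TH n (u i * (u j)⁻¹) : ℝ) : ℂ) := by
    have e : ∀ c, P c * conj (P c) = ∑ i ∈ A, ∑ j ∈ A, b i * conj (b j) *
        (((TH n (u i * c) * TH n (u j * c) : ℝ)) : ℂ) := by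
      intro c
      simp only [hP, map_sum, map_mul, Complex.conj_ofReal, Finset.sum_mul_sum]
      refine Finset.sum_congr rfl fun i _ => Finset.sum_congr rfl fun j _ => ?_
      push_cast
      ring
    have hc : ∀ i j, Continuous fun c : V → S3 => b i * conj (b j) * (((TH n (u i * c) * TH n (u j * c) : ℝ)) : ℂ) :=
      fun i j => continuous_const.mul (Complex.continuous_ofReal.comp ((hk i).mul (hk j)))
    simp_rw [e]
    rw [integral_finsetSum _ fun i _ => integrable_V (continuous_finsetSum _ fun j _ => hc i j)]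
    refine Finset.sum_congr rfl fun i _ => ?_
    rw [integral_finsetSum _ fun j _ => integrable_V (hc i j)]
    refine Finset.sum_congr rfl fun j _ => ?_
    rw [integral_const_mul, integral_complex_ofReal, TH_inner]
  have h3 : ∫ c, ‖P c‖ ^ 2 ∂(sgV V) ≤ S * Y := by
    have e : ((∫ c, ‖P c‖ ^ 2 ∂(sgV V) : ℝ) : ℂ) = ∫ c, P c * conj (P c) ∂(sgV V) := by
      rw [← integral_complex_ofReal]
      refine integral_congr_ae (Filter.Eventually.of_forall fun c => ?_)
      simp only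
      rw [Complex.mul_conj, Complex.normSq_eq_norm_sq]
    have e2 : ‖((∫ c, ‖P c‖ ^ 2 ∂(sgV V) : ℝ) : ℂ)‖ ≤ S * Y := by
      rw [e, h2]
      calc ‖∑ i ∈ A, ∑ j ∈ A, b i * conj (b j) * ((TH n (u i * (u j)⁻¹) : ℝ) : ℂ)‖ ≤
          ∑ i ∈ A, ∑ j ∈ A, (‖b i‖ ^ 2 / 2 + ‖b j‖ ^ 2 / 2) * |TH n (u i * (u j)⁻¹)| := by
            refine (norm_sum_le _ _).trans (Finset.sum_le_sum fun i _ => ?_)
            refine (norm_sum_le _ _).trans (Finset.sum_le_sum fun j _ => ?_)
            rw [norm_mul, norm_mul, RCLike.norm_conj, Complex.norm_real, Real.norm_eq_abs]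
            refine mul_le_mul_of_nonneg_right ?_ (abs_nonneg _)
            nlinarith [sq_nonneg (‖b i‖ - ‖b j‖)]
        _ = ∑ i ∈ A, ‖b i‖ ^ 2 / 2 * ∑ j ∈ A, |TH n (u i * (u j)⁻¹)| +
            ∑ j ∈ A, ‖b j‖ ^ 2 / 2 * ∑ i ∈ A, |TH n (u j * (u i)⁻¹)| := by
            simp_rw [add_mul, Finset.sum_add_distrib, Finset.mul_sum]
            congr 1
            rw [Finset.sum_comm]
            refine Finset.sum_congr rfl fun j _ => Finset.sum_congr rfl fun i _ => ?_
            congr 2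
            rw [← TH_inv]
            congr 1
            rw [mul_inv_rev, inv_inv]
        _ ≤ ∑ i ∈ A, ‖b i‖ ^ 2 / 2 * S + ∑ j ∈ A, ‖b j‖ ^ 2 / 2 * S :=
            add_le_add (Finset.sum_le_sum fun i hi => mul_le_mul_of_nonneg_left (hS i hi) (by positivity))
              (Finset.sum_le_sum fun i hi => mul_le_mul_of_nonneg_left (hS i hi) (by positivity))
        _ = S * Y := by
            rw [← Finset.sum_add_distrib, hY, Finset.mul_sum]
            refine Finset.sum_congr rfl fun i _ => ?_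
            ring
    rw [Complex.norm_real, Real.norm_eq_abs] at e2
    exact (le_abs_self _).trans e2
  -- positivity
  have h4 : 0 ≤ ∫ c, ‖g₀ c - ((S⁻¹ : ℝ) : ℂ) * P c‖ ^ 2 ∂(sgV V) := integral_nonneg fun c => sq_nonneg _
  have h5 : ∀ c, ‖g₀ c - ((S⁻¹ : ℝ) : ℂ) * P c‖ ^ 2 =
      (‖g₀ c‖ ^ 2 - 2 * S⁻¹ * (g₀ c * conj (P c)).re) + S⁻¹ ^ 2 * ‖P c‖ ^ 2 := by
    intro c
    rw [← Complex.normSq_eq_norm_sq, ← Complex.normSq_eq_norm_sq, ← Complex.normSq_eq_norm_sq, Complex.normSq_sub,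
      Complex.normSq_mul, Complex.normSq_ofReal, map_mul, Complex.conj_ofReal,
      show g₀ c * (((S⁻¹ : ℝ) : ℂ) * conj (P c)) = ((S⁻¹ : ℝ) : ℂ) * (g₀ c * conj (P c)) by ring, Complex.re_ofReal_mul]
    ring
  have c1 : Continuous fun c => ‖g₀ c‖ ^ 2 := hg.norm.pow 2
  have c2 : Continuous fun c => 2 * S⁻¹ * (g₀ c * conj (P c)).re :=
    continuous_const.mul (Complex.continuous_re.comp (hg.mul (Complex.continuous_conj.comp hPc)))
  have c3 : Continuous fun c => S⁻¹ ^ 2 * ‖P c‖ ^ 2 := continuous_const.mul (hPc.norm.pow 2)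
  have c4 : Continuous fun c => ‖g₀ c‖ ^ 2 - 2 * S⁻¹ * (g₀ c * conj (P c)).re := c1.sub c2
  simp_rw [h5] at h4
  rw [integral_add (hint c4) (hint c3), integral_sub (hint c1) (hint c2), integral_const_mul, integral_const_mul] at h4
  have h6 : ∫ c, (g₀ c * conj (P c)).re ∂(sgV V) = Y := by
    have h7 := integral_re (𝕜 := ℂ) (integrable_V (hg.mul (Complex.continuous_conj.comp hPc)))
    have h8 : ∫ c, (g₀ c * conj (P c)).re ∂(sgV V) = (∫ c, g₀ c * conj (P c) ∂(sgV V)).re := h7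
    rw [h8, h1, Complex.ofReal_re]
  rw [h6, ← hX] at h4
  have h9 : S⁻¹ ^ 2 * ∫ c, ‖P c‖ ^ 2 ∂(sgV V) ≤ S⁻¹ ^ 2 * (S * Y) := mul_le_mul_of_nonneg_left h3 (by positivity)
  have h10 : S⁻¹ ^ 2 * (S * Y) = S⁻¹ * Y := by field_simp
  have h11 : S⁻¹ * Y ≤ X := by linarith
  rw [inv_mul_le_iff₀ hS0] at h11
  exact h11

end selberg

/-- unfolding a covering -/
theorem unfold_cover {X G : Type*} [MeasurableSpace X] (μ : Measure X) [Group G] [Countable G] (T : G → X → X)
    (hT1 : ∀ x, T 1 x = x) (hTm : ∀ g h x, T (g * h) x = T g (T h x)) (hmp : ∀ g, MeasurePreserving (T g) μ μ)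
    {B D : Set X} (hB : MeasurableSet B) (hD : MeasurableSet D) {H : X → ℝ≥0∞} (hH : Measurable H)
    (hcov : ∀ᵐ x ∂μ, ∃ g, T g x ∈ D) :
    ∫⁻ x in B, H x ∂μ ≤ ∫⁻ x in D, ∑' g, B.indicator H (T g x) ∂μ := by
  have hms : ∀ g, MeasurableSet {x | T g x ∈ D} := fun g => (hmp g).measurable hD
  have hinvT : ∀ g x, T g (T g⁻¹ x) = x := fun g x => by rw [← hTm, mul_inv_cancel, hT1]
  calc ∫⁻ x in B, H x ∂μ = ∫⁻ x in ⋃ g : G, (B ∩ {x | T g x ∈ D}), H x ∂μ := by
        refine setLIntegral_congr ?_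
        filter_upwards [hcov] with x hx
        apply propext
        constructor
        · intro h
          obtain ⟨g, hg⟩ := hx
          exact mem_iUnion.2 ⟨g, h, hg⟩
        · intro h
          obtain ⟨g, hg⟩ := mem_iUnion.1 h
          exact hg.1
    _ ≤ ∑' g : G, ∫⁻ x in B ∩ {x | T g x ∈ D}, H x ∂μ := lintegral_iUnion_le _ _
    _ = ∑' g : G, ∫⁻ x in D, B.indicator H (T g⁻¹ x) ∂μ := by
        refine tsum_congr fun g => ?_
        rw [← lintegral_indicator (hB.inter (hms g)), ← (hmp g⁻¹).lintegral_comp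
          ((hH.indicator (hB.inter (hms g)))), ← lintegral_indicator hD]
        refine lintegral_congr fun w => ?_
        have hmem : T g⁻¹ w ∈ B ∩ {x | T g x ∈ D} ↔ T g⁻¹ w ∈ B ∧ w ∈ D := by
          constructor
          · rintro ⟨a, b⟩
            refine ⟨a, ?_⟩
            have : T g (T g⁻¹ w) ∈ D := b
            rwa [hinvT] at this
          · rintro ⟨a, b⟩
            refine ⟨a, ?_⟩
            show T g (T g⁻¹ w) ∈ D
            rwa [hinvT]
        by_cases h2 : w ∈ D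
        · by_cases h1 : T g⁻¹ w ∈ B
          · rw [indicator_of_mem (hmem.2 ⟨h1, h2⟩), indicator_of_mem h2, indicator_of_mem h1]
          · rw [indicator_of_notMem (fun h => h1 (hmem.1 h).1), indicator_of_mem h2, indicator_of_notMem h1]
        · rw [indicator_of_notMem (fun h => h2 (hmem.1 h).2), indicator_of_notMem h2]
    _ = ∑' g : G, ∫⁻ x in D, B.indicator H (T g x) ∂μ :=
        (Equiv.inv G).tsum_eq fun g => ∫⁻ x in D, B.indicator H (T g x) ∂μ
    _ = ∫⁻ x in D, ∑' g, B.indicator H (T g x) ∂μ := by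
        rw [← lintegral_tsum]
        intro g
        refine Measurable.aemeasurable ?_
        exact (hH.indicator hB).comp (hmp g).measurable

end Pool.Agent.H496.R4
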